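import Pool.Agent.L0h20.SY.Core

set_option autoImplicit false

/-!
# Proofs which are closed under permutations of points
-/

namespace Pool.Agent.L0h20.SY

open Pool.Agent.L0h36.BG

theorem subs_finite {p : ℕ} {α : Type} (φ : Fml p α) : φ.subs.Finite := by
  induction φ with
  | var x => exact Set.finite_singleton _
  | neg φ ih => exact ih.insert _
  | and k f ih => exact (Set.finite_iUnion ih).insert _
  | or k f ih => exact (Set.finite_iUnion ih).insert _
  | mod i k f ih => exact (Set.finite_iUnion ih).insert _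

theorem occurring_finite {p : ℕ} {α : Type} (π : List (Fml p α)) : (Occurring π).Finite := by
  have h1 : Occurring π = ⋃ A ∈ {A | A ∈ π}, A.subs := by
    ext ψ
    simp [Occurring]
  rw [h1]
  exact Set.Finite.biUnion (List.finite_toSet π) fun A _ => subs_finite A

/-- If the set of the subformulas is closed under the permutations of `W` and some subformula has
many images then there are many subformulas. -/
theorem ncard_of_closed {p n : ℕ} {W : Finset (Fin n)} {M : ℝ}
    {π : List (Fml p (Finset (Fin n)))}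
    (hcl : ∀ ψ ∈ Occurring π, ∀ σ : Equiv.Perm (Fin n), PermOf W σ →
      ∃ χ ∈ Occurring π, Same χ (image σ ψ))
    (h : ∃ ψ ∈ Occurring π, ManyImages W M ψ) : M ≤ ((Occurring π).ncard : ℝ) := by
  classical
  obtain ⟨ψ, hψ, s, hs, hsW, hinj⟩ := h
  have h1 : ∀ σ : Equiv.Perm (Fin n), ∃ χ, σ ∈ s → χ ∈ Occurring π ∧ Same χ (image σ ψ) := by
    intro σ
    by_cases hσ : σ ∈ s
    · obtain ⟨χ, h2, h3⟩ := hcl ψ hψ σ (hsW σ hσ)
      exact ⟨χ, fun _ => ⟨h2, h3⟩⟩
    · exact ⟨ψ, fun h => absurd h hσ⟩
  choose F hF using h1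
  have h2 : s.card ≤ (Occurring π).ncard := by
    rw [← Set.ncard_coe_finset]
    apply Set.ncard_le_ncard_of_injOn F (fun σ hσ => (hF σ hσ).1) _ (occurring_finite π)
    intro σ hσ τ hτ hst
    have h3 := (hF σ hσ).2
    have h4 := (hF τ hτ).2
    have hst' : F σ = F τ := hst
    rw [hst'] at h3
    exact hinj σ hσ τ hτ (h3.symm.trans h4)
  exact hs.trans (by exact_mod_cast h2)

end Pool.Agent.L0h20.SY
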