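import Pool.Agent.L0h20.SY.Eva

set_option autoImplicit false

/-!
# Locally correct truth assignments
-/

namespace Pool.Agent.L0h20.SY

open Pool.Agent.L0h36.BG

variable {p n : ℕ}

/-- The orbit under the powers of `c`. -/
def orb (c : Equiv.Perm (Fin n)) (y : Cl p n) : Set (Cl p n) := {z | ∃ i : ℤ, z = c ^ i • y}

theorem orb_smul (c : Equiv.Perm (Fin n)) (y : Cl p n) : orb c (c • y) = orb c y := by
  ext z
  constructor
  · rintro ⟨i, rfl⟩
    exact ⟨i + 1, by rw [zpow_add, zpow_one, mul_smul]⟩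
  · rintro ⟨i, rfl⟩
    exact ⟨i - 1, by rw [← mul_smul]; congr 1; rw [zpow_sub, zpow_one, inv_mul_cancel_right]⟩

theorem self_mem_orb (c : Equiv.Perm (Fin n)) (y : Cl p n) : y ∈ orb c y :=
  ⟨0, by rw [zpow_zero, one_smul]⟩

/-- A representative of the orbit. -/
noncomputable def rep (c : Equiv.Perm (Fin n)) (y : Cl p n) : Cl p n :=
  @Classical.epsilon (Cl p n) ⟨y⟩ (fun z => z ∈ orb c y)

theorem rep_smul (c : Equiv.Perm (Fin n)) (y : Cl p n) : rep c (c • y) = rep c y := by
  unfold rep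
  rw [orb_smul]

theorem rep_mem (c : Equiv.Perm (Fin n)) (y : Cl p n) : rep c y ∈ orb c y :=
  @Classical.epsilon_spec (Cl p n) (fun z => z ∈ orb c y) ⟨y, self_mem_orb c y⟩

open Classical in
/-- A permutation of `W` which fixes the points of `A` and makes the element good, if there is
one. -/
noncomputable def gam (W R A : Finset (Fin n)) (k : ℕ) (z : Cl p n) : Equiv.Perm (Fin n) :=
  if h : ∃ σ : Equiv.Perm (Fin n), PermOf W σ ∧ (∀ a ∈ A, σ a = a) ∧ Good W R k (σ • z) then
    h.choose else 1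

theorem gam_spec {W R A : Finset (Fin n)} {k : ℕ} {z : Cl p n}
    (h : ∃ σ : Equiv.Perm (Fin n), PermOf W σ ∧ (∀ a ∈ A, σ a = a) ∧ Good W R k (σ • z)) :
    PermOf W (gam W R A k z) ∧ (∀ a ∈ A, gam W R A k z a = a) ∧
      Good W R k (gam W R A k z • z) := by
  unfold gam
  rw [dif_pos h]
  exact h.choose_spec

open Classical in
/-- The truth value of an arbitrary class. -/
noncomputable def wc (W R A : Finset (Fin n)) (k : ℕ) (P : Finset (Finset (Fin n)))
    (c : Equiv.Perm (Fin n)) (y : Cl p n) : Prop :=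
  if Good W R k y then vc W R k P y else vc W R k P (gam W R A k (rep c y) • rep c y)

variable {W R A : Finset (Fin n)} {k : ℕ} {P : Finset (Finset (Fin n))} {c : Equiv.Perm (Fin n)}

theorem wc_good {φ : Fml p (Finset (Fin n))} (h : Good W R k (cl φ)) :
    wc W R A k P c (cl φ) ↔ V W R k P φ := by
  unfold wc
  rw [if_pos h, vc_cl]

/-- Bad arguments have the value of a good argument. -/
theorem bad_arg (hMAP : S_MAP) (hMOV : S_MOV) (hRW : R ⊆ W) (hc : PermOf R c)
    (hAW : A ⊆ W) (hAR : Disjoint A R) (hcard : A.card + k + R.card ≤ W.card)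
    {l : ℕ} {f : Fin l → Fml p (Finset (Fin n))}
    (hA : ∀ σ : Equiv.Perm (Fin n), PermOf W σ → (∀ a ∈ A, σ a = a) →
      ∀ y, mult f (σ • y) = mult f y) (j : Fin l)
    (hy : ∃ B ⊆ W, B.card ≤ k ∧ Sup W B (cl (f j))) (hbad : ¬ Good W R k (cl (f j))) :
    ∃ j', Good W R k (cl (f j')) ∧ (wc W R A k P c (cl (f j)) ↔ V W R k P (f j')) := by
  obtain ⟨B, hBW, hBk, hB⟩ := hy
  set y := cl (f j) with hy
  obtain ⟨i, hi⟩ := rep_mem c y
  set z := rep c y with hz
  have hcW : PermOf W (c ^ i) := (hc.mono hRW).zpow i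
  have hB' : Sup W (B.map (c ^ i).toEmbedding) z := by
    rw [hi]
    exact hMAP (Fin n) (Cl p n) W B y _ hcW hB
  obtain ⟨τ, hτW, hτA, hτ⟩ := hMOV (Fin n) W A (B.map (c ^ i).toEmbedding) R hAW
    (hcW.map_subset hBW) hRW hAR (by rw [Finset.card_map]; omega)
  have hex : ∃ σ : Equiv.Perm (Fin n), PermOf W σ ∧ (∀ a ∈ A, σ a = a) ∧
      Good W R k (σ • z) := by
    refine ⟨τ, hτW, hτA, (B.map (c ^ i).toEmbedding).map τ.toEmbedding,
      hτW.map_subset (hcW.map_subset hBW), by rw [Finset.card_map, Finset.card_map]; exact hBk,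
      ?_, hMAP (Fin n) (Cl p n) W _ z τ hτW hB'⟩
    rw [Finset.disjoint_left]
    intro x hx hxR
    rw [Finset.mem_map] at hx
    obtain ⟨b, hb, rfl⟩ := hx
    exact hτ b hb hxR
  obtain ⟨g1, g2, g3⟩ := gam_spec hex
  set g := gam W R A k z with hg
  have hT : ∀ y', mult f ((g * c ^ i) • y') = mult f y' := by
    apply hA _ (g1.mul hcW)
    intro a ha
    rw [Equiv.Perm.mul_apply]
    have h1 : (c ^ i) a = a := hc.zpow i a fun h => Finset.disjoint_left.1 hAR ha h
    rw [h1, g2 a ha]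
  have hm : mult f y ≠ 0 := by
    unfold mult
    rw [Ne, Set.ncard_eq_zero (Set.toFinite _)]
    intro h
    have : j ∈ {j | cl (f j) = y} := rfl
    rw [h] at this
    exact this
  have hm2 : mult f (g • z) ≠ 0 := by
    have h1 := hT y
    rw [mul_smul, ← hi] at h1
    rw [h1]
    exact hm
  obtain ⟨j', hj'⟩ := exists_of_mult_ne_zero hm2
  refine ⟨j', ?_, ?_⟩
  · rw [hj']
    exact g3
  · unfold wc
    rw [if_neg hbad, ← hz, ← hg, ← hj', vc_cl]

/-- There is a truth assignment which extends the evaluation of the good formulas and is correct at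
the good formulas with the support `A`. -/
theorem exists_world (hp : p.Prime) (hINT : S_INT) (hMAP : S_MAP) (hMOV : S_MOV) (hPER : S_PER)
    (hRW : R ⊆ W) (hc : PermOf R c) {l : ℕ} (hcl : c ^ (p ^ l) = 1) (hk : k < p ^ l)
    (hfree : ∀ x ∈ R, ∀ i, 0 < i → i < p ^ l → (c ^ i) x ≠ x)
    (hAW : A ⊆ W) (hAR : Disjoint A R) (hcard : A.card + k + R.card ≤ W.card)
    (hcard2 : 2 * k < W.card) (P : Finset (Finset (Fin n))) :
    ∃ w : Fml p (Finset (Fin n)) → Prop,
      (∀ φ, Good W R k (cl φ) → (w φ ↔ V W R k P φ)) ∧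
      ∀ T : Fml p (Finset (Fin n)), Good W R k (cl T) → Sup W A (cl T) →
        (∀ ψ ∈ T.subs, ∃ B ⊆ W, B.card ≤ k ∧ Sup W B (cl ψ)) → Fml.CorrectAt w T := by
  classical
  refine ⟨fun φ => wc W R A k P c (cl φ), fun φ hφ => wc_good hφ, fun T hT hTA hsub => ?_⟩
  have self_subs : ∀ φ : Fml p (Finset (Fin n)), φ ∈ φ.subs := by
    intro φ
    cases φ with
    | var x => exact rfl
    | _ => exact Set.mem_insert _ _
  cases T with
  | var e => exact trivial
  | neg φ =>
    have hφ : Good W R k (cl φ) := by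
      obtain ⟨B, h1, h2, h3, h4⟩ := hT
      exact ⟨B, h1, h2, h3, sup_neg_iff.1 h4⟩
    change wc W R A k P c (cl (Fml.neg φ)) ↔ ¬ wc W R A k P c (cl φ)
    rw [wc_good hT, wc_good hφ]
    exact Iff.rfl
  | and m f =>
    have hargs : ∀ j, ∃ B ⊆ W, B.card ≤ k ∧ Sup W B (cl (f j)) := fun j =>
      hsub _ (Set.mem_insert_of_mem _ (Set.mem_iUnion.2 ⟨j, self_subs _⟩))
    have hA' : ∀ σ : Equiv.Perm (Fin n), PermOf W σ → (∀ a ∈ A, σ a = a) →
        ∀ y, mult f (σ • y) = mult f y := fun σ h1 h2 => (smul_and_iff f σ).1 (hTA σ h1 h2)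
    change wc W R A k P c (cl (Fml.and m f)) ↔ ∀ j, wc W R A k P c (cl (f j))
    rw [wc_good hT]
    constructor
    · intro h j
      by_cases hj : Good W R k (cl (f j))
      · rw [wc_good hj]
        exact h j hj
      · obtain ⟨j', hj', hw⟩ := bad_arg (P := P) hMAP hMOV hRW hc hAW hAR hcard hA' j (hargs j) hj
        rw [hw]
        exact h j' hj'
    · intro h j hj
      have := h j
      rwa [wc_good hj] at this
  | or m f =>
    have hargs : ∀ j, ∃ B ⊆ W, B.card ≤ k ∧ Sup W B (cl (f j)) := fun j =>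
      hsub _ (Set.mem_insert_of_mem _ (Set.mem_iUnion.2 ⟨j, self_subs _⟩))
    have hA' : ∀ σ : Equiv.Perm (Fin n), PermOf W σ → (∀ a ∈ A, σ a = a) →
        ∀ y, mult f (σ • y) = mult f y := fun σ h1 h2 => (smul_or_iff f σ).1 (hTA σ h1 h2)
    change wc W R A k P c (cl (Fml.or m f)) ↔ ∃ j, wc W R A k P c (cl (f j))
    rw [wc_good hT]
    constructor
    · rintro ⟨j, hj, hv⟩
      exact ⟨j, (wc_good hj).2 hv⟩
    · rintro ⟨j, hw⟩
      by_cases hj : Good W R k (cl (f j))
      · exact ⟨j, hj, (wc_good hj).1 hw⟩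
      · obtain ⟨j', hj', hw'⟩ := bad_arg (P := P) hMAP hMOV hRW hc hAW hAR hcard hA' j (hargs j) hj
        exact ⟨j', hj', hw'.1 hw⟩
  | mod i m f =>
    have hargs : ∀ j, ∃ B ⊆ W, B.card ≤ k ∧ Sup W B (cl (f j)) := fun j =>
      hsub _ (Set.mem_insert_of_mem _ (Set.mem_iUnion.2 ⟨j, self_subs _⟩))
    have hcA : ∀ y, mult f (c • y) = mult f y := by
      apply (smul_mod_iff i f c).1
      apply hTA c (hc.mono hRW)
      intro a ha
      exact hc a fun h => Finset.disjoint_left.1 hAR ha h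
    obtain ⟨e, he⟩ := (args_iff f c).2 hcA
    have he' : ∀ j, cl (f (e j)) = c • cl (f j) := fun j => (cl_eq.2 (he j)).symm
    change wc W R A k P c (cl (Fml.mod i m f)) ↔
      (({j | wc W R A k P c (cl (f j))}.ncard : ℕ) : ZMod p) = i
    rw [wc_good hT]
    have hbadcount : p ∣ {j | ¬ Good W R k (cl (f j)) ∧ wc W R A k P c (cl (f j))}.ncard := by
      have hinv : ∀ j, (¬ Good W R k (cl (f (e j))) ∧ wc W R A k P c (cl (f (e j)))) ↔
          (¬ Good W R k (cl (f j)) ∧ wc W R A k P c (cl (f j))) := by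
        intro j
        rw [he' j]
        have h1 := good_smul_iff (k := k) (y := cl (f j)) hMAP hRW hc
        rw [h1]
        by_cases h2 : Good W R k (cl (f j))
        · simp only [h2, not_true_eq_false, false_and]
        · have h3 : wc W R A k P c (c • cl (f j)) ↔ wc W R A k P c (cl (f j)) := by
            unfold wc
            rw [if_neg h2, if_neg fun h => h2 (h1.1 h), rep_smul]
          rw [h3]
      have h1 := hPER p l {j // ¬ Good W R k (cl (f j)) ∧ wc W R A k P c (cl (f j))} (Cl p n) hp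
        (Equiv.Perm.subtypePerm (e : Equiv.Perm (Fin m)) hinv) (fun j => cl (f j.1)) (MulAction.toPerm c) (by
          have h2 := (MulAction.toPermHom (Equiv.Perm (Fin n)) (Cl p n)).map_pow c (p ^ l)
          rw [hcl, map_one] at h2
          exact h2.symm) (fun j => he' j.1) (fun j hj => j.2.1
            (good_of_fixed hINT hMAP hRW hc hk hfree hcard2 (hargs j.1) hj))
      rw [← Nat.card_coe_set_eq, ← Fintype.card_eq_nat_card]
      exact h1
    have hsplit : {j | wc W R A k P c (cl (f j))}.ncard =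
        {j | Good W R k (cl (f j)) ∧ V W R k P (f j)}.ncard +
        {j | ¬ Good W R k (cl (f j)) ∧ wc W R A k P c (cl (f j))}.ncard := by
      rw [← Set.ncard_union_eq _ (Set.toFinite _) (Set.toFinite _)]
      · congr 1
        ext j
        change wc W R A k P c (cl (f j)) ↔ (Good W R k (cl (f j)) ∧ V W R k P (f j)) ∨
          (¬ Good W R k (cl (f j)) ∧ wc W R A k P c (cl (f j)))
        by_cases hj : Good W R k (cl (f j))
        · rw [wc_good hj]
          simp only [hj, true_and, not_true_eq_false, false_and, or_false]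
        · simp only [hj, false_and, not_false_eq_true, true_and, false_or]
      · rw [Set.disjoint_left]
        rintro j ⟨h1, -⟩ ⟨h2, -⟩
        exact h2 h1
    rw [hsplit, Nat.cast_add, (ZMod.natCast_eq_zero_iff _ _).2 hbadcount, add_zero]
    exact Iff.rfl

end Pool.Agent.L0h20.SY
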