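import Pool.Agent.L0h20.SY.Count
import Pool.Agent.L0h75.SY.CNT
import Pool.Agent.L0h88.SY.STEP
import Pool.Agent.L0h88.SY.CYC
import Pool.Agent.L0h32.SY.GEN
import Pool.Agent.L0h32.SY.MOV
import Pool.Agent.L0h66.SY.PER

set_option autoImplicit false

/-!
# Every proof of the counting principle contains a formula without small support
-/

namespace Pool.Agent.L0h20.SY

open Pool.Agent.L0h36.BG

theorem h_INT : S_INT := Pool.Agent.L0h32.SY.t_INT

theorem h_MAP : S_MAP := Pool.Agent.L0h32.SY.t_MAP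

theorem h_MOV : S_MOV := Pool.Agent.L0h32.SY.t_MOV

theorem h_PER : S_PER := Pool.Agent.L0h66.SY.t_PER

theorem h_CNT : S_CNT :=
  Pool.Agent.L0h75.SY.t_CNT Pool.Agent.L0h32.SY.t_SWAP h_INT h_MAP

theorem h_STEP : S_STEP := Pool.Agent.L0h88.SY.t_STEP Pool.Agent.L0h32.SY.t_SWAP h_CNT

theorem h_CYC : S_CYC := Pool.Agent.L0h88.SY.t_CYC

/-- A set whose size is a multiple of `q` has a partition into sets of size `q`. -/
theorem exists_partition {n q : ℕ} (a : ℕ) : ∀ U : Finset (Fin n), U.card = q * a →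
    ∃ P : Finset (Finset (Fin n)), (∀ e ∈ P, e.card = q) ∧
      (∀ e ∈ P, ∀ f ∈ P, e ≠ f → Disjoint e f) ∧ (∀ x, x ∈ U → ∃ e ∈ P, x ∈ e) ∧
      ∀ e ∈ P, e ⊆ U := by
  classical
  induction a with
  | zero =>
    intro U hU
    rw [Nat.mul_zero, Finset.card_eq_zero] at hU
    refine ⟨∅, by simp, by simp, ?_, by simp⟩
    intro x hx
    rw [hU] at hx
    simp at hx
  | succ a ih =>
    intro U hU
    obtain ⟨b, hb, hbc⟩ := Finset.exists_subset_card_eq (s := U) (n := q) (by
      rw [hU, Nat.mul_succ]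
      omega)
    obtain ⟨P, h1, h2, h3, h4⟩ := ih (U \ b) (by
      rw [Finset.card_sdiff_of_subset hb, hU, hbc, Nat.mul_succ]
      omega)
    have h5 : ∀ e ∈ P, Disjoint b e := fun e he =>
      Finset.disjoint_of_subset_right (h4 e he) Finset.disjoint_sdiff
    refine ⟨insert b P, ?_, ?_, ?_, ?_⟩
    · intro e he
      rcases Finset.mem_insert.1 he with rfl | he
      · exact hbc
      · exact h1 e he
    · intro e he f hf hef
      rcases Finset.mem_insert.1 he with he' | he'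
      · rcases Finset.mem_insert.1 hf with hf' | hf'
        · exact absurd (he'.trans hf'.symm) hef
        · rw [he']
          exact h5 f hf'
      · rcases Finset.mem_insert.1 hf with hf' | hf'
        · rw [hf']
          exact (h5 e he').symm
        · exact h2 e he' f hf' hef
    · intro x hx
      by_cases hxb : x ∈ b
      · exact ⟨b, Finset.mem_insert_self _ _, hxb⟩
      · obtain ⟨e, he, hxe⟩ := h3 x (Finset.mem_sdiff.2 ⟨hx, hxb⟩)
        exact ⟨e, Finset.mem_insert_of_mem he, hxe⟩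
    · intro e he
      rcases Finset.mem_insert.1 he with rfl | he
      · exact hb
      · exact (h4 e he).trans Finset.sdiff_subset

/-- Some subformula of a proof of the counting principle has no support of at most `k` points. -/
theorem core {p q : ℕ} (hp : p.Prime) (hq : 2 ≤ q) (hpq : p.Coprime q) {n L k : ℕ}
    {W : Finset (Fin n)} (hqk : q ≤ k) (hcard : (q * p + 2 * L + 4) * (k + 1) ≤ W.card)
    {π : List (Fml p (Finset (Fin n)))} (hπ : IsProof L π) (hC : countFml p q n ∈ π) :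
    ∃ ψ ∈ Occurring π, ∀ B ⊆ W, B.card ≤ k → ¬ Supports W B ψ := by
  classical
  by_contra hcon
  push Not at hcon
  have hs : ∀ ψ ∈ Occurring π, ∃ B ⊆ W, B.card ≤ k ∧ Sup W B (cl ψ) := by
    intro ψ hψ
    obtain ⟨B, h1, h2, h3⟩ := hcon ψ hψ
    exact ⟨B, h1, h2, supports_iff.1 h3⟩
  have e1 : (q * p + 2 * L + 4) * (k + 1) = q * p * (k + 1) + (2 * L + 2) * k + 2 * k +
      (2 * L + 4) := by ring
  obtain ⟨R, c, l, hRW, hRc, hcR, hcl, hk, hfree, hdvd⟩ := h_CYC p q n k W hp hq hpq (by omega)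
  obtain ⟨a, ha⟩ := hdvd
  obtain ⟨P, hP1, hP2, hP3, hP4⟩ := exists_partition (q := q) a (Finset.univ \ R) (by
    rw [Finset.card_sdiff_of_subset (Finset.subset_univ _), Finset.card_univ, Fintype.card_fin, ha])
  obtain ⟨B, hBW, hBk, hB⟩ := hs _ ⟨_, hC, self_mem_subs _⟩
  obtain ⟨g, hgW, -, hgB⟩ := h_MOV (Fin n) W ∅ B R (Finset.empty_subset _) hBW hRW
    (Finset.disjoint_empty_left _) (by rw [Finset.card_empty]; omega)
  have hgood : Good W R k (cl (image g (countFml p q n))) := by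
    refine ⟨B.map g.toEmbedding, hgW.map_subset hBW, by rw [Finset.card_map]; exact hBk, ?_,
      h_MAP (Fin n) (Cl p n) W B _ g hgW hB⟩
    rw [Finset.disjoint_left]
    intro x hx hxR
    rw [Finset.mem_map] at hx
    obtain ⟨b, hb, rfl⟩ := hx
    exact hgB b hb hxR
  obtain ⟨u, r, hur⟩ := List.append_of_mem hC
  have hV := sound hp h_INT h_MAP h_MOV h_PER hRW hcR hcl hk hfree (L := L) (by omega) (by omega) P
    hπ hs u.length u _ r hur rfl g hgW hgood
  refine not_V_count hRW (by omega) hqk ?_ hP1 hP2 (fun x hx => hP3 x ?_) (fun e he => ?_) hV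
  · have h2 : 4 * (k + 1) ≤ (q * p + 2 * L + 4) * (k + 1) := Nat.mul_le_mul_right _ (by omega)
    omega
  · exact Finset.mem_sdiff.2 ⟨Finset.mem_univ _, hx⟩
  · exact Finset.disjoint_of_subset_left (hP4 e he) Finset.sdiff_disjoint

theorem not_manyIm_of {p n : ℕ} {W : Finset (Fin n)} {M : ℕ} {φ : Fml p (Finset (Fin n))}
    (h : ¬ ManyImages W M φ) : ¬ ManyIm W M (cl φ) := by
  rintro ⟨s, h1, h2, h3⟩
  refine h ⟨s, by exact_mod_cast h1, h2, fun σ hσ τ hτ hst => h3 σ hσ τ hτ ?_⟩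
  rw [smul_cl, smul_cl]
  exact cl_eq.2 hst

/-- Some subformula of a proof of the counting principle has many images. -/
theorem core_images {p q : ℕ} (hp : p.Prime) (hq : 2 ≤ q) (hpq : p.Coprime q) {n L k : ℕ}
    {W : Finset (Fin n)} (hqk : q ≤ k) (hcard : (q * p + 2 * L + 4) * (k + 1) ≤ W.card)
    (hcard2 : 4 * (k + 1) ^ 2 ≤ W.card)
    {π : List (Fml p (Finset (Fin n)))} (hπ : IsProof L π) (hC : countFml p q n ∈ π) :
    ∃ ψ ∈ Occurring π, ManyImages W ((2 ^ (k + 1) : ℕ) : ℝ) ψ := by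
  by_contra hcon
  push Not at hcon
  obtain ⟨ψ, ⟨A, hA, hψ⟩, h⟩ := core hp hq hpq hqk hcard hπ hC
  obtain ⟨B, h1, h2, h3⟩ := exists_sup h_CNT h_STEP hcard2 ψ (fun χ hχ =>
    not_manyIm_of (hcon χ ⟨A, hA, subs_trans hψ hχ⟩))
  exact h B h1 h2 (supports_iff.2 h3)

end Pool.Agent.L0h20.SY
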