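import Pool.Agent.L0h20.SY.Sound

set_option autoImplicit false

/-!
# The counting principle is false in the evaluation
-/

namespace Pool.Agent.L0h20.SY

open Pool.Agent.L0h36.BG

variable {p n : ℕ}

theorem vars_same {α : Type} {φ ψ : Fml p α} (h : Same φ ψ) : φ.vars = ψ.vars := by
  have key : ∀ {k l : ℕ} (f : Fin k → Fml p α) (g : Fin l → Fml p α) (e : Fin k ≃ Fin l),
      (∀ j, (f j).vars = (g (e j)).vars) → (⋃ j, (f j).vars) = ⋃ j, (g j).vars := by
    intro k l f g e he
    rw [← e.surjective.iUnion_comp (fun j => (g j).vars)]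
    exact Set.iUnion_congr he
  induction φ generalizing ψ with
  | var x =>
    cases ψ with
    | var y =>
      have h' : x = y := h
      rw [h']
    | _ => exact h.elim
  | neg φ ih =>
    cases ψ with
    | neg ψ =>
      exact ih (ψ := ψ) h
    | _ => exact h.elim
  | and k f ih =>
    cases ψ with
    | and l u =>
      obtain ⟨e, he⟩ := h
      exact key f u e fun j => ih j (he j)
    | _ => exact h.elim
  | or k f ih =>
    cases ψ with
    | or l u =>
      obtain ⟨e, he⟩ := h
      exact key f u e fun j => ih j (he j)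
    | _ => exact h.elim
  | mod i k f ih =>
    cases ψ with
    | mod i' l u =>
      obtain ⟨h0, e, he⟩ := h
      exact key f u e fun j => ih j (he j)
    | _ => exact h.elim

theorem vars_ren {α β : Type} (g : α → β) (φ : Fml p α) : (ren g φ).vars = g '' φ.vars := by
  induction φ with
  | var x => exact (Set.image_singleton).symm
  | neg φ ih => exact ih
  | and k f ih =>
    change (⋃ j, (ren g (f j)).vars) = g '' ⋃ j, (f j).vars
    rw [Set.image_iUnion]
    exact Set.iUnion_congr ih
  | or k f ih =>
    change (⋃ j, (ren g (f j)).vars) = g '' ⋃ j, (f j).vars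
    rw [Set.image_iUnion]
    exact Set.iUnion_congr ih
  | mod i k f ih =>
    change (⋃ j, (ren g (f j)).vars) = g '' ⋃ j, (f j).vars
    rw [Set.image_iUnion]
    exact Set.iUnion_congr ih

theorem mem_vars_andL {α : Type} {l : List (Fml p α)} {x : α} :
    x ∈ (andL l).vars ↔ ∃ φ ∈ l, x ∈ φ.vars := by
  change x ∈ (⋃ j, (l.get j).vars) ↔ _
  rw [Set.mem_iUnion]
  constructor
  · rintro ⟨j, hj⟩
    exact ⟨_, List.get_mem l j, hj⟩
  · rintro ⟨φ, hφ, h⟩
    obtain ⟨j, rfl⟩ := List.get_of_mem hφ
    exact ⟨j, h⟩

variable {W R : Finset (Fin n)} {k : ℕ} {P : Finset (Finset (Fin n))} {g : Equiv.Perm (Fin n)}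

theorem V_orL {l : List (Fml p (Finset (Fin n)))} :
    V W R k P (image g (orL l)) ↔
      ∃ φ ∈ l, Good W R k (cl (image g φ)) ∧ V W R k P (image g φ) := by
  constructor
  · rintro ⟨j, hj⟩
    exact ⟨_, List.get_mem l j, hj⟩
  · rintro ⟨φ, hφ, h⟩
    obtain ⟨j, rfl⟩ := List.get_of_mem hφ
    exact ⟨j, h⟩

theorem V_andL {l : List (Fml p (Finset (Fin n)))} :
    V W R k P (image g (andL l)) ↔
      ∀ φ ∈ l, Good W R k (cl (image g φ)) → V W R k P (image g φ) := by
  constructor
  · intro h φ hφ
    obtain ⟨j, rfl⟩ := List.get_of_mem hφ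
    exact h j
  · intro h j
    exact h _ (List.get_mem l j)

theorem good_var {e : Finset (Fin n)} (he : e.card ≤ k) (heR : Disjoint e R) :
    Good W R k (cl (Fml.var e) : Cl p n) :=
  ⟨e ∩ W, Finset.inter_subset_right, (Finset.card_le_card Finset.inter_subset_left).trans he,
    Finset.disjoint_of_subset_left Finset.inter_subset_left heR, sup_var_inter W e⟩

/-- If a good formula is invariant then exchanging a point of `R` with a point of `W` outside the
support does not change the variables. -/
theorem vars_swap (hRW : R ⊆ W) {T : Fml p (Finset (Fin n))} {A : Finset (Fin n)}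
    (hAR : Disjoint A R) (hA : Sup W A (cl T)) {r w : Fin n} (hr : r ∈ R) (hw : w ∈ W)
    (hwA : w ∉ A) : (fun e : Finset (Fin n) => e.map (Equiv.swap r w).toEmbedding) '' T.vars =
      T.vars := by
  have h1 := hA (Equiv.swap r w) (by
    intro x hx
    apply Equiv.swap_apply_of_ne_of_ne
    · rintro rfl
      exact hx (hRW hr)
    · rintro rfl
      exact hx hw) (by
    intro a ha
    apply Equiv.swap_apply_of_ne_of_ne
    · rintro rfl
      exact Finset.disjoint_left.1 hAR ha hr
    · rintro rfl
      exact hwA ha)
  rw [smul_cl, cl_eq] at h1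
  exact (vars_ren _ _).symm.trans (vars_same h1)

theorem exists_outside {W U : Finset (Fin n)} (h : U.card < W.card) : ∃ w ∈ W, w ∉ U := by
  by_contra hcon
  push Not at hcon
  exact absurd (Finset.card_le_card (show W ⊆ U from hcon)) (by omega)

theorem not_V_count {q : ℕ} (hRW : R ⊆ W) (hq : 1 ≤ q) (hqk : q ≤ k)
    (hcard : k + 2 * q + 1 < W.card) (hP1 : ∀ e ∈ P, e.card = q)
    (hP2 : ∀ e ∈ P, ∀ f ∈ P, e ≠ f → Disjoint e f) (hP3 : ∀ x, x ∉ R → ∃ e ∈ P, x ∈ e)
    (hP4 : ∀ e ∈ P, Disjoint e R) :
    ¬ V W R k P (image g (countFml p q n)) := by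
  classical
  unfold countFml
  rw [V_orL]
  rintro ⟨φ, hφ, hgood, hV⟩
  rw [List.mem_append, List.mem_map, List.mem_map] at hφ
  have hmap : ∀ b : Finset (Fin n), (b.map g⁻¹.toEmbedding).map g.toEmbedding = b := by
    intro b
    rw [Finset.map_map]
    have : g⁻¹.toEmbedding.trans g.toEmbedding = Function.Embedding.refl _ := by
      ext x
      exact congrArg Fin.val (g.apply_symm_apply x)
    rw [this, Finset.map_refl]
  rcases hφ with ⟨v, -, rfl⟩ | ⟨ef, hef, rfl⟩
  · have hmem : ∀ b : Finset (Fin n), b.card = q → g v ∈ b →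
        Fml.neg (Fml.var (b.map g⁻¹.toEmbedding)) ∈
          (((Finset.univ : Finset (Finset (Fin n))).filter
            (fun e => e.card = q ∧ v ∈ e)).toList.map
            (fun e => (Fml.neg (Fml.var e) : Fml p (Finset (Fin n))))) := by
      intro b hb hvb
      rw [List.mem_map]
      refine ⟨_, ?_, rfl⟩
      rw [Finset.mem_toList, Finset.mem_filter]
      refine ⟨Finset.mem_univ _, by rw [Finset.card_map]; exact hb, ?_⟩
      rw [Finset.mem_map]
      exact ⟨g v, hvb, g.symm_apply_apply v⟩
    have himg : ∀ b : Finset (Fin n), image g (Fml.neg (Fml.var (b.map g⁻¹.toEmbedding)) :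
        Fml p (Finset (Fin n))) = Fml.neg (Fml.var b) := by
      intro b
      change Fml.neg (Fml.var ((b.map g⁻¹.toEmbedding).map g.toEmbedding)) = _
      rw [hmap]
    by_cases hvR : g v ∈ R
    · obtain ⟨A, hAW, hAk, hAR, hA⟩ := hgood
      obtain ⟨w, hwW, hw⟩ := exists_outside (W := W) (U := insert (g v) A)
        (lt_of_le_of_lt (Finset.card_insert_le _ _) (by omega))
      rw [Finset.mem_insert, not_or] at hw
      have h1 := vars_swap hRW hAR hA hvR hwW hw.2
      obtain ⟨b, hvb, hbw, hbq⟩ := Finset.exists_subsuperset_card_eq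
        (s := {g v}) (t := Finset.univ.erase w) (n := q) (by
          intro x hx
          rw [Finset.mem_singleton] at hx
          rw [hx, Finset.mem_erase]
          exact ⟨fun h => hw.1 h.symm, Finset.mem_univ _⟩) (by
          rw [Finset.card_singleton]
          exact hq) (by
          rw [Finset.card_erase_of_mem (Finset.mem_univ _), Finset.card_univ, Fintype.card_fin]
          have := Finset.card_le_univ W
          rw [Fintype.card_fin] at this
          omega)
      have hvb' : g v ∈ b := hvb (Finset.mem_singleton_self _)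
      have hbT : b ∈ (image g (uncovered p q n v)).vars := by
        change b ∈ (ren _ _).vars
        rw [vars_ren]
        refine ⟨b.map g⁻¹.toEmbedding, ?_, hmap b⟩
        unfold uncovered
        rw [mem_vars_andL]
        exact ⟨_, hmem b hbq hvb', rfl⟩
      rw [← h1] at hbT
      obtain ⟨b', hb', hbb'⟩ := hbT
      have hvb'' : g v ∈ b' := by
        change b' ∈ (ren _ _).vars at hb'
        rw [vars_ren] at hb'
        obtain ⟨e, he, rfl⟩ := hb'
        unfold uncovered at he
        rw [mem_vars_andL] at he
        obtain ⟨χ, hχ, heχ⟩ := he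
        rw [List.mem_map] at hχ
        obtain ⟨e', he', rfl⟩ := hχ
        have h2 : e = e' := heχ
        rw [h2]
        rw [Finset.mem_toList, Finset.mem_filter] at he'
        change g v ∈ e'.map g.toEmbedding
        exact Finset.mem_map_of_mem _ he'.2.2
      have hwb : w ∈ b := by
        rw [← hbb']
        change w ∈ b'.map (Equiv.swap (g v) w).toEmbedding
        rw [Finset.mem_map]
        exact ⟨g v, hvb'', Equiv.swap_apply_left _ _⟩
      exact (Finset.mem_erase.1 (hbw hwb)).1 rfl
    · obtain ⟨b, hb, hvb⟩ := hP3 (g v) hvR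
      unfold uncovered at hV
      rw [V_andL] at hV
      have h1 := hV _ (hmem b (hP1 b hb) hvb)
      rw [himg b] at h1
      refine h1 ?_ hb
      obtain ⟨B, h2, h3, h4, h5⟩ := good_var (p := p) (W := W) (R := R) (k := k)
        ((hP1 b hb).le.trans hqk) (hP4 b hb)
      exact ⟨B, h2, h3, h4, sup_neg_iff.2 h5⟩
  · obtain ⟨e, f⟩ := ef
    rw [Finset.mem_toList, clashes, Finset.mem_filter] at hef
    obtain ⟨-, heq, hfq, hne, hnd⟩ := hef
    change e.card = q at heq
    change f.card = q at hfq
    change e ≠ f at hne
    change ¬ Disjoint e f at hnd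
    change Good W R k (cl (image g (clash p n e f))) at hgood
    change V W R k P (image g (clash p n e f)) at hV
    set e' := e.map g.toEmbedding with he'
    set f' := f.map g.toEmbedding with hf'
    have hcv : ∀ x, x ∈ (image g (clash p n e f)).vars ↔ x = e' ∨ x = f' := by
      intro x
      change x ∈ (ren _ _).vars ↔ _
      rw [vars_ren]
      constructor
      · rintro ⟨y, hy, rfl⟩
        unfold clash at hy
        rw [mem_vars_andL] at hy
        obtain ⟨χ, hχ, hyχ⟩ := hy
        rw [List.mem_cons, List.mem_singleton] at hχ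
        rcases hχ with rfl | rfl
        · left
          have : y = e := hyχ
          rw [this]
        · right
          have : y = f := hyχ
          rw [this]
      · rintro (rfl | rfl)
        · refine ⟨e, ?_, rfl⟩
          unfold clash
          rw [mem_vars_andL]
          exact ⟨Fml.var e, by simp, rfl⟩
        · refine ⟨f, ?_, rfl⟩
          unfold clash
          rw [mem_vars_andL]
          exact ⟨Fml.var f, by simp, rfl⟩
    obtain ⟨A, hAW, hAk, hAR, hA⟩ := hgood
    have hdisj : ∀ r ∈ e' ∪ f', r ∉ R := by
      intro r hr hrR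
      obtain ⟨w, hwW, hw⟩ := exists_outside (W := W) (U := A ∪ (e' ∪ f')) (by
        have h1 := Finset.card_union_le A (e' ∪ f')
        have h2 := Finset.card_union_le e' f'
        have h3 : e'.card = q := by rw [he', Finset.card_map]; exact heq
        have h4 : f'.card = q := by rw [hf', Finset.card_map]; exact hfq
        omega)
      rw [Finset.mem_union, not_or] at hw
      have h1 := vars_swap hRW hAR hA hrR hwW hw.1
      have key : ∀ d, (d = e' ∨ d = f') → r ∈ d → False := by
        intro d hd hrd
        have h2 : d.map (Equiv.swap r w).toEmbedding ∈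
            (image g (clash p n e f)).vars := by
          rw [← h1]
          exact ⟨d, (hcv d).2 hd, rfl⟩
        have h3 : w ∈ d.map (Equiv.swap r w).toEmbedding := by
          rw [Finset.mem_map]
          exact ⟨r, hrd, Equiv.swap_apply_left _ _⟩
        rcases (hcv _).1 h2 with h4 | h4
        · rw [h4] at h3
          exact hw.2 (Finset.mem_union_left _ h3)
        · rw [h4] at h3
          exact hw.2 (Finset.mem_union_right _ h3)
      rcases Finset.mem_union.1 hr with h | h
      · exact key e' (Or.inl rfl) h
      · exact key f' (Or.inr rfl) h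
    unfold clash at hV
    rw [V_andL] at hV
    have he'P : e' ∈ P := by
      refine hV (Fml.var e) (by simp) ?_
      refine good_var (by change (e.map g.toEmbedding).card ≤ k; rw [Finset.card_map]; omega) ?_
      rw [Finset.disjoint_left]
      intro x hx
      exact hdisj x (Finset.mem_union_left _ hx)
    have hf'P : f' ∈ P := by
      refine hV (Fml.var f) (by simp) ?_
      refine good_var (by change (f.map g.toEmbedding).card ≤ k; rw [Finset.card_map]; omega) ?_
      rw [Finset.disjoint_left]
      intro x hx
      exact hdisj x (Finset.mem_union_right _ hx)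
    have hne' : e' ≠ f' := fun h => hne (Finset.map_injective _ h)
    have h5 := hP2 e' he'P f' hf'P hne'
    rw [he', hf', Finset.disjoint_map] at h5
    exact hnd h5

end Pool.Agent.L0h20.SY
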