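import Pool.Agent.L0h36.BG.Defs

set_option autoImplicit false

/-!
# Images of formulas under permutations of points

The formulas, the proofs and the counting principle are those of `Pool/Agent/L0h36/BG/Defs.lean`.
-/

namespace Pool.Agent.L0h20.SY

open Pool.Agent.L0h36.BG

/-- The formula with the variables renamed by `g`. -/
def ren {p : ℕ} {α β : Type} (g : α → β) : Fml p α → Fml p β
  | .var x => .var (g x)
  | .neg φ => .neg (ren g φ)
  | .and k f => .and k fun j => ren g (f j)
  | .or k f => .or k fun j => ren g (f j)
  | .mod i k f => .mod i k fun j => ren g (f j)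

/-- The two formulas differ at most in the order of the arguments of the connectives `∧`, `∨` and
`MOD_{p,i}` (in all subformulas). -/
def Same {p : ℕ} {α : Type} : Fml p α → Fml p α → Prop
  | .var x, .var y => x = y
  | .neg φ, .neg ψ => Same φ ψ
  | .and k f, .and l g => ∃ e : Fin k ≃ Fin l, ∀ j, Same (f j) (g (e j))
  | .or k f, .or l g => ∃ e : Fin k ≃ Fin l, ∀ j, Same (f j) (g (e j))
  | .mod i k f, .mod i' l g => i = i' ∧ ∃ e : Fin k ≃ Fin l, ∀ j, Same (f j) (g (e j))
  | _, _ => False

/-- The image of the formula under the permutation `σ` of the points: the variable of the set `e` is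
replaced by the variable of the set `σ e`. -/
def image {p n : ℕ} (σ : Equiv.Perm (Fin n)) (φ : Fml p (Finset (Fin n))) :
    Fml p (Finset (Fin n)) :=
  ren (fun e => e.map σ.toEmbedding) φ

/-- The permutations which fix all points outside `W`. -/
def PermOf {Ω : Type} (W : Finset Ω) (σ : Equiv.Perm Ω) : Prop := ∀ x, x ∉ W → σ x = x

/-- The images of the formula under the permutations of `W` are at least `M` different formulas, where
formulas which differ only in the order of arguments are identified. -/
def ManyImages {p n : ℕ} (W : Finset (Fin n)) (M : ℝ) (φ : Fml p (Finset (Fin n))) : Prop :=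
  ∃ s : Finset (Equiv.Perm (Fin n)), M ≤ s.card ∧ (∀ σ ∈ s, PermOf W σ) ∧
    ∀ σ ∈ s, ∀ τ ∈ s, Same (image σ φ) (image τ φ) → σ = τ

/-- The set `A` supports the formula with respect to `W`: all permutations of `W` which fix the points
of `A` map the formula to itself, up to the order of arguments. -/
def Supports {p n : ℕ} (W A : Finset (Fin n)) (φ : Fml p (Finset (Fin n))) : Prop :=
  ∀ σ : Equiv.Perm (Fin n), PermOf W σ → (∀ a ∈ A, σ a = a) → Same (image σ φ) φ

end Pool.Agent.L0h20.SY
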