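import Pool.Agent.L0h20.SY.Her

set_option autoImplicit false

/-!
# Evaluation of the formulas without the subformulas which depend on the points of `R`
-/

namespace Pool.Agent.L0h20.SY

open Pool.Agent.L0h36.BG

variable {p n : ℕ}

/-- The element has a support of at most `k` points of `W` which do not belong to `R`. -/
def Good (W R : Finset (Fin n)) (k : ℕ) (y : Cl p n) : Prop :=
  ∃ A ⊆ W, A.card ≤ k ∧ Disjoint A R ∧ Sup W A y

/-- The truth value: arguments which are not good are ignored. -/
def V (W R : Finset (Fin n)) (k : ℕ) (P : Finset (Finset (Fin n))) :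
    Fml p (Finset (Fin n)) → Prop
  | .var e => e ∈ P
  | .neg φ => ¬ V W R k P φ
  | .and _ f => ∀ j, Good W R k (cl (f j)) → V W R k P (f j)
  | .or _ f => ∃ j, Good W R k (cl (f j)) ∧ V W R k P (f j)
  | .mod i _ f => (({j | Good W R k (cl (f j)) ∧ V W R k P (f j)}.ncard : ℕ) : ZMod p) = i

variable {W R : Finset (Fin n)} {k : ℕ} {P : Finset (Finset (Fin n))}

theorem V_same {φ ψ : Fml p (Finset (Fin n))} (h : Same φ ψ) :
    V W R k P φ ↔ V W R k P ψ := by
  induction φ generalizing ψ with
  | var x =>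
    cases ψ with
    | var y =>
      have h' : x = y := h
      rw [h']
    | _ => exact h.elim
  | neg φ ih =>
    cases ψ with
    | neg ψ => exact not_congr (ih h)
    | _ => exact h.elim
  | and k' f ih =>
    cases ψ with
    | and l u =>
      obtain ⟨e, he⟩ := h
      constructor
      · intro h1 j hj
        have h2 := he (e.symm j)
        rw [e.apply_symm_apply] at h2
        rw [← ih _ h2]
        apply h1
        rw [cl_eq.2 h2]
        exact hj
      · intro h1 j hj
        rw [ih _ (he j)]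
        apply h1
        rw [← cl_eq.2 (he j)]
        exact hj
    | _ => exact h.elim
  | or k' f ih =>
    cases ψ with
    | or l u =>
      obtain ⟨e, he⟩ := h
      constructor
      · rintro ⟨j, hj, hv⟩
        refine ⟨e j, ?_, (ih _ (he j)).1 hv⟩
        rw [← cl_eq.2 (he j)]
        exact hj
      · rintro ⟨j, hj, hv⟩
        have h2 := he (e.symm j)
        rw [e.apply_symm_apply] at h2
        refine ⟨e.symm j, ?_, (ih _ h2).2 hv⟩
        rw [cl_eq.2 h2]
        exact hj
    | _ => exact h.elim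
  | mod i k' f ih =>
    cases ψ with
    | mod i' l u =>
      obtain ⟨h0, e, he⟩ := h
      have h1 : {j | Good W R k (cl (f j)) ∧ V W R k P (f j)}.ncard =
          {j | Good W R k (cl (u j)) ∧ V W R k P (u j)}.ncard := by
        apply Set.ncard_congr (fun j _ => e j)
        · rintro j ⟨hj, hv⟩
          refine ⟨?_, (ih _ (he j)).1 hv⟩
          rw [← cl_eq.2 (he j)]
          exact hj
        · intro a b _ _ hab
          exact e.injective hab
        · rintro j ⟨hj, hv⟩
          have h2 := he (e.symm j)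
          rw [e.apply_symm_apply] at h2
          refine ⟨e.symm j, ⟨?_, (ih _ h2).2 hv⟩, e.apply_symm_apply j⟩
          rw [cl_eq.2 h2]
          exact hj
      unfold V
      rw [h1, h0]
    | _ => exact h.elim

/-- The truth value of a class. -/
def vc (W R : Finset (Fin n)) (k : ℕ) (P : Finset (Finset (Fin n))) (y : Cl p n) : Prop :=
  ∃ φ, cl φ = y ∧ V W R k P φ

theorem vc_cl (φ : Fml p (Finset (Fin n))) : vc W R k P (cl φ) ↔ V W R k P φ := by
  constructor
  · rintro ⟨ψ, h1, h2⟩
    exact (V_same (cl_eq.1 h1)).1 h2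
  · intro h
    exact ⟨φ, rfl, h⟩

theorem sup_of_eq {A B : Finset (Fin n)} {y : Cl p n} (h : Sup W A y) (hAB : A ⊆ B) :
    Sup W B y := fun σ hσ hf => h σ hσ fun a ha => hf a (hAB ha)

theorem PermOf.inv {Ω : Type} {W : Finset Ω} {σ : Equiv.Perm Ω} (h : PermOf W σ) :
    PermOf W σ⁻¹ := by
  intro x hx
  rw [Equiv.Perm.inv_eq_iff_eq]
  exact (h x hx).symm

theorem PermOf.mul {Ω : Type} {W : Finset Ω} {σ τ : Equiv.Perm Ω} (h : PermOf W σ)
    (h' : PermOf W τ) : PermOf W (σ * τ) := by
  intro x hx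
  rw [Equiv.Perm.mul_apply, h' x hx, h x hx]

theorem PermOf.one {Ω : Type} (W : Finset Ω) : PermOf W (1 : Equiv.Perm Ω) := fun _ _ => rfl

theorem PermOf.zpow {Ω : Type} {W : Finset Ω} {σ : Equiv.Perm Ω} (h : PermOf W σ) (i : ℤ) :
    PermOf W (σ ^ i) := by
  intro x hx
  exact Equiv.Perm.zpow_apply_eq_self_of_apply_eq_self (h x hx) i

theorem PermOf.map_subset {Ω : Type} [DecidableEq Ω] {W A : Finset Ω} {σ : Equiv.Perm Ω}
    (h : PermOf W σ) (hA : A ⊆ W) : A.map σ.toEmbedding ⊆ W := by
  intro x hx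
  rw [Finset.mem_map] at hx
  obtain ⟨y, hy, rfl⟩ := hx
  change σ y ∈ W
  by_contra hc
  have h1 := σ.injective (h _ hc)
  rw [h1] at hc
  exact hc (hA hy)

theorem Good.smul (hMAP : S_MAP) (hRW : R ⊆ W) {σ : Equiv.Perm (Fin n)} (hσ : PermOf R σ)
    {y : Cl p n} (h : Good W R k y) : Good W R k (σ • y) := by
  obtain ⟨A, hAW, hAk, hAR, hA⟩ := h
  refine ⟨A, hAW, hAk, hAR, ?_⟩
  have h1 := hMAP (Fin n) (Cl p n) W A y σ (hσ.mono hRW) hA
  rwa [map_eq_of_fix fun x hx => hσ x fun hR => Finset.disjoint_left.1 hAR hx hR] at h1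

theorem good_smul_iff (hMAP : S_MAP) (hRW : R ⊆ W) {σ : Equiv.Perm (Fin n)} (hσ : PermOf R σ)
    {y : Cl p n} : Good W R k (σ • y) ↔ Good W R k y := by
  refine ⟨fun h => ?_, fun h => h.smul hMAP hRW hσ⟩
  have h1 := h.smul hMAP hRW hσ.inv
  rwa [inv_smul_smul] at h1

/-- A class with a small support which is fixed by `c` is good. -/
theorem good_of_fixed (hINT : S_INT) (hMAP : S_MAP) (hRW : R ⊆ W) {c : Equiv.Perm (Fin n)}
    (hc : PermOf R c) {N : ℕ} (hk : k < N)
    (hfree : ∀ x ∈ R, ∀ i, 0 < i → i < N → (c ^ i) x ≠ x) (hW : 2 * k < W.card) {y : Cl p n}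
    (hy : ∃ B ⊆ W, B.card ≤ k ∧ Sup W B y) (hcy : c • y = y) : Good W R k y := by
  classical
  set 𝒮 : Finset (Finset (Fin n)) := W.powerset.filter (fun B => B.card ≤ k ∧ Sup W B y) with h𝒮
  have hne : 𝒮.Nonempty := by
    obtain ⟨B, h1, h2, h3⟩ := hy
    exact ⟨B, by rw [h𝒮, Finset.mem_filter, Finset.mem_powerset]; exact ⟨h1, h2, h3⟩⟩
  obtain ⟨B, hB, hmin⟩ := Finset.exists_min_image 𝒮 Finset.card hne
  rw [h𝒮, Finset.mem_filter, Finset.mem_powerset] at hB
  obtain ⟨hBW, hBk, hBs⟩ := hB
  have hcW : PermOf W c := hc.mono hRW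
  have h1 := hMAP (Fin n) (Cl p n) W B y c hcW hBs
  rw [hcy] at h1
  have hcB : (B.map c.toEmbedding).card = B.card := Finset.card_map _
  have h2 : ∃ w ∈ W, w ∉ B ∧ w ∉ B.map c.toEmbedding := by
    by_contra hcon
    push Not at hcon
    have h3 : W ⊆ B ∪ B.map c.toEmbedding := by
      intro w hw
      rw [Finset.mem_union]
      by_cases hwB : w ∈ B
      · exact Or.inl hwB
      · exact Or.inr (hcon w hw hwB)
    have h4 := Finset.card_le_card h3
    have h5 := Finset.card_union_le B (B.map c.toEmbedding)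
    omega
  have h3 := hINT (Fin n) (Cl p n) W B _ y hBs h1 h2
  have h4 := hmin (B ∩ B.map c.toEmbedding) (by
    rw [h𝒮, Finset.mem_filter, Finset.mem_powerset]
    exact ⟨Finset.inter_subset_left.trans hBW,
      (Finset.card_le_card Finset.inter_subset_left).trans hBk, h3⟩)
  have h5 : B ∩ B.map c.toEmbedding = B :=
    Finset.eq_of_subset_of_card_le Finset.inter_subset_left h4
  have h6 : B ⊆ B.map c.toEmbedding := by
    intro x hx
    rw [← h5] at hx
    exact (Finset.mem_inter.1 hx).2
  have h7 : B = B.map c.toEmbedding := Finset.eq_of_subset_of_card_le h6 hcB.le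
  have h8 : ∀ x ∈ B, c x ∈ B := by
    intro x hx
    rw [h7, Finset.mem_map]
    exact ⟨x, hx, rfl⟩
  refine ⟨B, hBW, hBk, ?_, hBs⟩
  rw [Finset.disjoint_left]
  intro x hxB hxR
  have h9 : ∀ i : ℕ, (c ^ i) x ∈ B := by
    intro i
    induction i with
    | zero => exact hxB
    | succ i ih =>
      rw [pow_succ', Equiv.Perm.mul_apply]
      exact h8 _ ih
  have h10 : ((Finset.range N).image fun i => (c ^ i) x).card = N := by
    rw [Finset.card_image_of_injOn, Finset.card_range]
    have key : ∀ i j : ℕ, i < j → j < N → (c ^ i) x = (c ^ j) x → False := by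
      intro i j hij hj h
      have h11 : (c ^ (j - i)) x = x := by
        have h12 : (c ^ j) x = (c ^ i) ((c ^ (j - i)) x) := by
          rw [← Equiv.Perm.mul_apply, ← pow_add]
          congr 2
          omega
        rw [h12] at h
        exact ((c ^ i).injective h).symm
      exact hfree x hxR (j - i) (by omega) (by omega) h11
    intro i hi j hj hij
    rw [Finset.mem_coe, Finset.mem_range] at hi hj
    rcases lt_trichotomy i j with h | h | h
    · exact (key i j h hj hij).elim
    · exact h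
    · exact (key j i h hi hij.symm).elim
  have h11 : ((Finset.range N).image fun i => (c ^ i) x) ⊆ B := by
    intro z hz
    rw [Finset.mem_image] at hz
    obtain ⟨i, -, rfl⟩ := hz
    exact h9 i
  have h12 := Finset.card_le_card h11
  omega

end Pool.Agent.L0h20.SY
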