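import Pool.Agent.L0h20.SY.Quo

set_option autoImplicit false

/-!
# Formulas all whose subformulas have few images have small supports
-/

namespace Pool.Agent.L0h20.SY

open Pool.Agent.L0h36.BG

variable {p n : ℕ}

theorem smul_and_iff {k : ℕ} (f : Fin k → Fml p (Finset (Fin n))) (σ : Equiv.Perm (Fin n)) :
    σ • cl (Fml.and k f) = cl (Fml.and k f) ↔ ∀ y, mult f (σ • y) = mult f y := by
  rw [smul_cl, cl_eq, ← args_iff]
  exact Iff.rfl

theorem smul_or_iff {k : ℕ} (f : Fin k → Fml p (Finset (Fin n))) (σ : Equiv.Perm (Fin n)) :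
    σ • cl (Fml.or k f) = cl (Fml.or k f) ↔ ∀ y, mult f (σ • y) = mult f y := by
  rw [smul_cl, cl_eq, ← args_iff]
  exact Iff.rfl

theorem smul_mod_iff {k : ℕ} (i : ZMod p) (f : Fin k → Fml p (Finset (Fin n)))
    (σ : Equiv.Perm (Fin n)) :
    σ • cl (Fml.mod i k f) = cl (Fml.mod i k f) ↔ ∀ y, mult f (σ • y) = mult f y := by
  rw [smul_cl, cl_eq, ← args_iff]
  exact ⟨fun h => h.2, fun h => ⟨rfl, h⟩⟩

theorem smul_neg_iff (φ : Fml p (Finset (Fin n))) (σ : Equiv.Perm (Fin n)) :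
    σ • cl (Fml.neg φ) = cl (Fml.neg φ) ↔ σ • cl φ = cl φ := by
  rw [smul_cl, cl_eq, smul_cl, cl_eq]
  exact Iff.rfl

theorem smul_var_iff (e : Finset (Fin n)) (σ : Equiv.Perm (Fin n)) :
    σ • (cl (Fml.var e) : Cl p n) = cl (Fml.var e) ↔ e.map σ.toEmbedding = e := by
  rw [smul_cl, cl_eq]
  exact Iff.rfl

theorem sup_neg_iff {W B : Finset (Fin n)} {φ : Fml p (Finset (Fin n))} :
    Sup W B (cl (Fml.neg φ)) ↔ Sup W B (cl φ) := by
  unfold Sup
  simp only [smul_neg_iff]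

theorem exists_of_mult_ne_zero {k : ℕ} {f : Fin k → Fml p (Finset (Fin n))} {y : Cl p n}
    (h : mult f y ≠ 0) : ∃ j, cl (f j) = y := by
  by_contra hcon
  push Not at hcon
  apply h
  unfold mult
  have : {j | cl (f j) = y} = ∅ := by
    ext j
    exact ⟨fun hj => (hcon j hj).elim, fun hj => hj.elim⟩
  rw [this, Set.ncard_empty]

theorem map_eq_of_fix {e : Finset (Fin n)} {σ : Equiv.Perm (Fin n)} (h : ∀ x ∈ e, σ x = x) :
    e.map σ.toEmbedding = e := by
  ext x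
  rw [Finset.mem_map]
  constructor
  · rintro ⟨y, hy, rfl⟩
    change σ y ∈ e
    rw [h y hy]
    exact hy
  · intro hx
    exact ⟨x, hx, h x hx⟩

theorem map_eq_of_fix_compl {e : Finset (Fin n)} {σ : Equiv.Perm (Fin n)}
    (h : ∀ x, x ∉ e → σ x = x) : e.map σ.toEmbedding = e := by
  ext x
  rw [Finset.mem_map]
  constructor
  · rintro ⟨y, hy, rfl⟩
    change σ y ∈ e
    by_contra hc
    have h1 := σ.injective (h _ hc)
    rw [h1] at hc
    exact hc hy
  · intro hx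
    refine ⟨σ.symm x, ?_, σ.apply_symm_apply x⟩
    by_contra hc
    have h1 := h _ hc
    rw [σ.apply_symm_apply] at h1
    rw [← h1] at hc
    exact hc hx

theorem sup_var_inter (W e : Finset (Fin n)) : Sup W (e ∩ W) (cl (Fml.var e) : Cl p n) := by
  intro σ hσ hf
  rw [smul_var_iff]
  apply map_eq_of_fix
  intro x hx
  by_cases hW : x ∈ W
  · exact hf x (Finset.mem_inter.2 ⟨hx, hW⟩)
  · exact hσ x hW

theorem sup_var_sdiff (W e : Finset (Fin n)) : Sup W (W \ e) (cl (Fml.var e) : Cl p n) := by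
  intro σ hσ hf
  rw [smul_var_iff]
  apply map_eq_of_fix_compl
  intro x hx
  by_cases hW : x ∈ W
  · exact hf x (Finset.mem_sdiff.2 ⟨hW, hx⟩)
  · exact hσ x hW

theorem PermOf.mono {Ω : Type} {W W' : Finset Ω} (h : W' ⊆ W) {σ : Equiv.Perm Ω}
    (hσ : PermOf W' σ) : PermOf W σ := fun x hx => hσ x fun h' => hx (h h')

theorem exists_sup_var (hCNT : S_CNT) {W : Finset (Fin n)} {k : ℕ}
    (hW : 4 * (k + 1) ^ 2 ≤ W.card) (e : Finset (Fin n))
    (h : ¬ ManyIm W (2 ^ (k + 1)) (cl (Fml.var e) : Cl p n)) :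
    ∃ B ⊆ W, B.card ≤ k ∧ Sup W B (cl (Fml.var e) : Cl p n) := by
  have hc : (e ∩ W).card + (W \ e).card = W.card := by
    rw [Finset.inter_comm, Finset.card_inter_add_card_sdiff]
  by_cases h1 : 2 * (e ∩ W).card < W.card
  · exact hCNT (Fin n) (Cl p n) W (e ∩ W) k _ Finset.inter_subset_right h1 (sup_var_inter W e) h
  by_cases h2 : 2 * (W \ e).card < W.card
  · exact hCNT (Fin n) (Cl p n) W (W \ e) k _ Finset.sdiff_subset h2 (sup_var_sdiff W e) h
  exfalso
  have hk : 4 * (k + 1) ≤ W.card := by nlinarith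
  have h3 : 0 < (e ∩ W).card := by omega
  obtain ⟨w, hw⟩ := Finset.card_pos.1 h3
  have hwe := (Finset.mem_inter.1 hw).1
  have hwW := (Finset.mem_inter.1 hw).2
  set W' := W.erase w with hW'
  have hW'W : W' ⊆ W := Finset.erase_subset _ _
  have hcW' : W'.card = W.card - 1 := Finset.card_erase_of_mem hwW
  have h4 : (e ∩ W').card = (e ∩ W).card - 1 := by
    have : e ∩ W' = (e ∩ W).erase w := by
      ext x
      simp only [hW', Finset.mem_inter, Finset.mem_erase]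
      tauto
    rw [this, Finset.card_erase_of_mem hw]
  have h5 : W' \ e = W \ e := by
    ext x
    simp only [hW', Finset.mem_sdiff, Finset.mem_erase]
    constructor
    · rintro ⟨⟨-, h⟩, h'⟩
      exact ⟨h, h'⟩
    · rintro ⟨h, h'⟩
      exact ⟨⟨fun hh => h' (hh ▸ hwe), h⟩, h'⟩
  obtain ⟨B, hBW, hBk, hB⟩ := hCNT (Fin n) (Cl p n) W' (e ∩ W') k (cl (Fml.var e))
    Finset.inter_subset_right (by omega) (sup_var_inter W' e) (by
      rintro ⟨s, hs, hsW, hinj⟩
      exact h ⟨s, hs, fun σ hσ => (hsW σ hσ).mono hW'W, hinj⟩)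
  have h6 : ∃ u ∈ e ∩ W', u ∉ B := by
    by_contra hcon
    push Not at hcon
    have := Finset.card_le_card (show e ∩ W' ⊆ B from hcon)
    omega
  have h7 : ∃ v ∈ W' \ e, v ∉ B := by
    by_contra hcon
    push Not at hcon
    have := Finset.card_le_card (show W' \ e ⊆ B from hcon)
    rw [h5] at this
    omega
  obtain ⟨u, hu, huB⟩ := h6
  obtain ⟨v, hv, hvB⟩ := h7
  rw [Finset.mem_inter] at hu
  rw [Finset.mem_sdiff] at hv
  have h8 := hB (Equiv.swap u v) (by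
    intro x hx
    apply Equiv.swap_apply_of_ne_of_ne
    · rintro rfl
      exact hx hu.2
    · rintro rfl
      exact hx hv.1) (by
    intro a ha
    apply Equiv.swap_apply_of_ne_of_ne
    · rintro rfl
      exact huB ha
    · rintro rfl
      exact hvB ha)
  rw [smul_var_iff] at h8
  apply hv.2
  rw [← h8, Finset.mem_map]
  exact ⟨u, hu.1, Equiv.swap_apply_left u v⟩

theorem exists_sup (hCNT : S_CNT) (hSTEP : S_STEP) {W : Finset (Fin n)} {k : ℕ}
    (hW : 4 * (k + 1) ^ 2 ≤ W.card) (φ : Fml p (Finset (Fin n)))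
    (h : ∀ ψ ∈ φ.subs, ¬ ManyIm W (2 ^ (k + 1)) (cl ψ)) :
    ∃ B ⊆ W, B.card ≤ k ∧ Sup W B (cl φ) := by
  induction φ with
  | var e => exact exists_sup_var hCNT hW e (h _ rfl)
  | neg φ ih =>
    obtain ⟨B, h1, h2, h3⟩ := ih fun ψ hψ => h ψ (Set.mem_insert_of_mem _ hψ)
    exact ⟨B, h1, h2, sup_neg_iff.2 h3⟩
  | and l f ih =>
    refine hSTEP (Fin n) (Cl p n) W k _ (mult f) (smul_and_iff f) (fun y hy => ?_)
      (h _ (Set.mem_insert _ _)) hW
    obtain ⟨j, rfl⟩ := exists_of_mult_ne_zero hy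
    exact ih j fun ψ hψ => h ψ (Set.mem_insert_of_mem _ (Set.mem_iUnion.2 ⟨j, hψ⟩))
  | or l f ih =>
    refine hSTEP (Fin n) (Cl p n) W k _ (mult f) (smul_or_iff f) (fun y hy => ?_)
      (h _ (Set.mem_insert _ _)) hW
    obtain ⟨j, rfl⟩ := exists_of_mult_ne_zero hy
    exact ih j fun ψ hψ => h ψ (Set.mem_insert_of_mem _ (Set.mem_iUnion.2 ⟨j, hψ⟩))
  | mod i l f ih =>
    refine hSTEP (Fin n) (Cl p n) W k _ (mult f) (smul_mod_iff i f) (fun y hy => ?_)
      (h _ (Set.mem_insert _ _)) hW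
    obtain ⟨j, rfl⟩ := exists_of_mult_ne_zero hy
    exact ih j fun ψ hψ => h ψ (Set.mem_insert_of_mem _ (Set.mem_iUnion.2 ⟨j, hψ⟩))

end Pool.Agent.L0h20.SY
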