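import Pool.Agent.L0h20.SY.Stm

set_option autoImplicit false

/-!
# Formulas up to the order of arguments, and the action of the permutations of the points
-/

namespace Pool.Agent.L0h20.SY

open Pool.Agent.L0h36.BG

section basic

variable {p : ℕ} {α β γ : Type}

theorem Same.refl (φ : Fml p α) : Same φ φ := by
  induction φ with
  | var x => rfl
  | neg φ ih => exact ih
  | and k f ih => exact ⟨Equiv.refl _, fun j => ih j⟩
  | or k f ih => exact ⟨Equiv.refl _, fun j => ih j⟩
  | mod i k f ih => exact ⟨rfl, Equiv.refl _, fun j => ih j⟩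

theorem Same.symm {φ ψ : Fml p α} (h : Same φ ψ) : Same ψ φ := by
  induction φ generalizing ψ with
  | var x => cases ψ <;> simp_all [Same]
  | neg φ ih =>
    cases ψ with
    | neg ψ => exact ih h
    | _ => exact h.elim
  | and k f ih =>
    cases ψ with
    | and l g =>
      obtain ⟨e, he⟩ := h
      refine ⟨e.symm, fun j => ?_⟩
      have h1 := ih _ (he (e.symm j))
      rwa [Equiv.apply_symm_apply] at h1
    | _ => exact h.elim
  | or k f ih =>
    cases ψ with
    | or l g =>
      obtain ⟨e, he⟩ := h
      refine ⟨e.symm, fun j => ?_⟩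
      have h1 := ih _ (he (e.symm j))
      rwa [Equiv.apply_symm_apply] at h1
    | _ => exact h.elim
  | mod i k f ih =>
    cases ψ with
    | mod i' l g =>
      obtain ⟨h0, e, he⟩ := h
      refine ⟨h0.symm, e.symm, fun j => ?_⟩
      have h1 := ih _ (he (e.symm j))
      rwa [Equiv.apply_symm_apply] at h1
    | _ => exact h.elim

theorem Same.trans {φ ψ χ : Fml p α} (h : Same φ ψ) (h' : Same ψ χ) : Same φ χ := by
  induction φ generalizing ψ χ with
  | var x =>
    cases ψ with
    | var y =>
      cases χ with
      | var z => exact Eq.trans h h'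
      | _ => exact h'.elim
    | _ => exact h.elim
  | neg φ ih =>
    cases ψ with
    | neg ψ =>
      cases χ with
      | neg χ => exact ih h h'
      | _ => exact h'.elim
    | _ => exact h.elim
  | and k f ih =>
    cases ψ with
    | and l g =>
      cases χ with
      | and m u =>
        obtain ⟨e, he⟩ := h
        obtain ⟨e', he'⟩ := h'
        exact ⟨e.trans e', fun j => ih _ (he j) (he' (e j))⟩
      | _ => exact h'.elim
    | _ => exact h.elim
  | or k f ih =>
    cases ψ with
    | or l g =>
      cases χ with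
      | or m u =>
        obtain ⟨e, he⟩ := h
        obtain ⟨e', he'⟩ := h'
        exact ⟨e.trans e', fun j => ih _ (he j) (he' (e j))⟩
      | _ => exact h'.elim
    | _ => exact h.elim
  | mod i k f ih =>
    cases ψ with
    | mod i' l g =>
      cases χ with
      | mod i'' m u =>
        obtain ⟨h0, e, he⟩ := h
        obtain ⟨h0', e', he'⟩ := h'
        exact ⟨h0.trans h0', e.trans e', fun j => ih _ (he j) (he' (e j))⟩
      | _ => exact h'.elim
    | _ => exact h.elim

theorem Same.ren (g : α → β) {φ ψ : Fml p α} (h : Same φ ψ) : Same (ren g φ) (ren g ψ) := by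
  induction φ generalizing ψ with
  | var x =>
    cases ψ with
    | var y => exact congrArg g h
    | _ => exact h.elim
  | neg φ ih =>
    cases ψ with
    | neg ψ => exact ih h
    | _ => exact h.elim
  | and k f ih =>
    cases ψ with
    | and l u =>
      obtain ⟨e, he⟩ := h
      exact ⟨e, fun j => ih _ (he j)⟩
    | _ => exact h.elim
  | or k f ih =>
    cases ψ with
    | or l u =>
      obtain ⟨e, he⟩ := h
      exact ⟨e, fun j => ih _ (he j)⟩
    | _ => exact h.elim
  | mod i k f ih =>
    cases ψ with
    | mod i' l u =>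
      obtain ⟨h0, e, he⟩ := h
      exact ⟨h0, e, fun j => ih _ (he j)⟩
    | _ => exact h.elim

theorem ren_ren (g : α → β) (g' : β → γ) (φ : Fml p α) : ren g' (ren g φ) = ren (g' ∘ g) φ := by
  induction φ with
  | var x => rfl
  | neg φ ih => exact congrArg Fml.neg ih
  | and k f ih => exact congrArg (Fml.and k) (funext ih)
  | or k f ih => exact congrArg (Fml.or k) (funext ih)
  | mod i k f ih => exact congrArg (Fml.mod i k) (funext ih)

theorem ren_id' (g : α → α) (hg : ∀ x, g x = x) (φ : Fml p α) : ren g φ = φ := by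
  induction φ with
  | var x => exact congrArg Fml.var (hg x)
  | neg φ ih => exact congrArg Fml.neg ih
  | and k f ih => exact congrArg (Fml.and k) (funext ih)
  | or k f ih => exact congrArg (Fml.or k) (funext ih)
  | mod i k f ih => exact congrArg (Fml.mod i k) (funext ih)

/-- The equivalence relation. -/
def st (p : ℕ) (α : Type) : Setoid (Fml p α) where
  r := Same
  iseqv := ⟨Same.refl, Same.symm, Same.trans⟩

end basic

variable {p n : ℕ}

/-- Formulas up to the order of arguments. -/
def Cl (p n : ℕ) : Type := Quotient (st p (Finset (Fin n)))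

/-- The class of a formula. -/
def cl (φ : Fml p (Finset (Fin n))) : Cl p n := Quotient.mk (st p (Finset (Fin n))) φ

theorem cl_eq {φ ψ : Fml p (Finset (Fin n))} : cl φ = cl ψ ↔ Same φ ψ :=
  ⟨fun h => Quotient.exact (s := st p (Finset (Fin n))) h,
    fun h => Quotient.sound (s := st p (Finset (Fin n))) h⟩

theorem cl_surj (y : Cl p n) : ∃ φ, cl φ = y := Quotient.exists_rep (s := st p (Finset (Fin n))) y

theorem image_one (φ : Fml p (Finset (Fin n))) : image 1 φ = φ := by
  apply ren_id'
  intro e
  exact Finset.map_refl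

theorem image_mul (σ τ : Equiv.Perm (Fin n)) (φ : Fml p (Finset (Fin n))) :
    image (σ * τ) φ = image σ (image τ φ) := by
  unfold image
  rw [ren_ren]
  congr 1
  funext e
  simp only [Function.comp_apply, Finset.map_map]
  congr 1

theorem Same.image (σ : Equiv.Perm (Fin n)) {φ ψ : Fml p (Finset (Fin n))} (h : Same φ ψ) :
    Same (SY.image σ φ) (SY.image σ ψ) := h.ren _

instance : MulAction (Equiv.Perm (Fin n)) (Cl p n) where
  smul σ := Quotient.map (sa := st p (Finset (Fin n))) (sb := st p (Finset (Fin n))) (image σ)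
    (fun _ _ h => Same.image σ h)
  one_smul y := by
    obtain ⟨φ, rfl⟩ := cl_surj y
    exact congrArg cl (image_one φ)
  mul_smul σ τ y := by
    obtain ⟨φ, rfl⟩ := cl_surj y
    exact congrArg cl (image_mul σ τ φ)

theorem smul_cl (σ : Equiv.Perm (Fin n)) (φ : Fml p (Finset (Fin n))) :
    σ • cl φ = cl (image σ φ) := rfl

theorem supports_iff {W A : Finset (Fin n)} {φ : Fml p (Finset (Fin n))} :
    Supports W A φ ↔ Sup W A (cl φ) := by
  unfold Supports Sup
  simp only [smul_cl, cl_eq]

/-- The multiplicity of a class among the arguments. -/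
noncomputable def mult {k : ℕ} (f : Fin k → Fml p (Finset (Fin n))) (y : Cl p n) : ℕ :=
  {j | cl (f j) = y}.ncard

theorem exists_equiv_iff {k l : ℕ} {J : Type} (u : Fin k → J) (v : Fin l → J) :
    (∃ e : Fin k ≃ Fin l, ∀ j, u j = v (e j)) ↔
      ∀ y, {j | u j = y}.ncard = {j | v j = y}.ncard := by
  classical
  constructor
  · rintro ⟨e, he⟩ y
    apply Set.ncard_congr (fun j _ => e j)
    · intro j hj
      change u j = y at hj
      change v (e j) = y
      rw [← he j]
      exact hj
    · intro a b _ _ h
      exact e.injective h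
    · intro b hb
      refine ⟨e.symm b, ?_, e.apply_symm_apply b⟩
      change v b = y at hb
      change u (e.symm b) = y
      rw [he, e.apply_symm_apply]
      exact hb
  · intro h
    have h1 : ∀ y, Nonempty ({j // u j = y} ≃ {j // v j = y}) := by
      intro y
      apply Fintype.card_eq.1
      have h2 := h y
      rw [← Nat.card_coe_set_eq, ← Nat.card_coe_set_eq] at h2
      rw [Fintype.card_eq_nat_card, Fintype.card_eq_nat_card]
      exact h2
    have E : ∀ y, {j // u j = y} ≃ {j // v j = y} := fun y => Classical.choice (h1 y)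
    refine ⟨(Equiv.sigmaFiberEquiv u).symm.trans ((Equiv.sigmaCongrRight E).trans
      (Equiv.sigmaFiberEquiv v)), fun j => ?_⟩
    simp only [Equiv.trans_apply]
    have h3 := (E (u j) ⟨j, rfl⟩).2
    exact h3.symm

theorem mult_smul {k : ℕ} (f : Fin k → Fml p (Finset (Fin n))) (σ : Equiv.Perm (Fin n))
    (y : Cl p n) : mult (fun j => image σ (f j)) (σ • y) = mult f y := by
  unfold mult
  congr 1
  ext j
  change cl (image σ (f j)) = σ • y ↔ cl (f j) = y
  rw [← smul_cl]
  exact ⟨fun h => smul_left_cancel σ h, fun h => by rw [h]⟩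

theorem args_iff {k : ℕ} (f : Fin k → Fml p (Finset (Fin n))) (σ : Equiv.Perm (Fin n)) :
    (∃ e : Fin k ≃ Fin k, ∀ j, Same (image σ (f j)) (f (e j))) ↔
      ∀ y, mult f (σ • y) = mult f y := by
  have h1 : (∃ e : Fin k ≃ Fin k, ∀ j, Same (image σ (f j)) (f (e j))) ↔
      ∃ e : Fin k ≃ Fin k, ∀ j, (fun j => cl (image σ (f j))) j = (fun j => cl (f j)) (e j) := by
    simp only [cl_eq]
  rw [h1, exists_equiv_iff (fun j => cl (image σ (f j))) (fun j => cl (f j))]
  constructor
  · intro h y
    exact (h (σ • y)).symm.trans (mult_smul f σ y)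
  · intro h y
    have h2 := h (σ⁻¹ • y)
    have h3 := mult_smul f σ (σ⁻¹ • y)
    rw [smul_inv_smul] at h2 h3
    exact h3.trans h2.symm

end Pool.Agent.L0h20.SY
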