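import Pool.Agent.L0h20.SY.World

set_option autoImplicit false

/-!
# Proofs all whose subformulas have small supports are true in the evaluation
-/

namespace Pool.Agent.L0h20.SY

open Pool.Agent.L0h36.BG

variable {p n : ℕ}

theorem self_mem_subs (φ : Fml p (Finset (Fin n))) : φ ∈ φ.subs := by
  cases φ with
  | var x => exact rfl
  | _ => exact Set.mem_insert _ _

theorem subs_trans {φ ψ : Fml p (Finset (Fin n))} (h : ψ ∈ φ.subs) : ψ.subs ⊆ φ.subs := by
  induction φ with
  | var x =>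
    have : ψ = Fml.var x := h
    rw [this]
  | neg φ ih =>
    rcases h with h | h
    · rw [h]
    · exact (ih h).trans (Set.subset_insert _ _)
  | and k f ih =>
    rcases h with h | h
    · rw [h]
    · obtain ⟨j, hj⟩ := Set.mem_iUnion.1 h
      exact (ih j hj).trans ((Set.subset_iUnion (fun j => (f j).subs) j).trans
        (Set.subset_insert _ _))
  | or k f ih =>
    rcases h with h | h
    · rw [h]
    · obtain ⟨j, hj⟩ := Set.mem_iUnion.1 h
      exact (ih j hj).trans ((Set.subset_iUnion (fun j => (f j).subs) j).trans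
        (Set.subset_insert _ _))
  | mod i k f ih =>
    rcases h with h | h
    · rw [h]
    · obtain ⟨j, hj⟩ := Set.mem_iUnion.1 h
      exact (ih j hj).trans ((Set.subset_iUnion (fun j => (f j).subs) j).trans
        (Set.subset_insert _ _))

theorem subs_image (σ : Equiv.Perm (Fin n)) {φ ψ : Fml p (Finset (Fin n))}
    (h : ψ ∈ (image σ φ).subs) : ∃ χ ∈ φ.subs, ψ = image σ χ := by
  induction φ with
  | var x => exact ⟨_, rfl, h⟩
  | neg φ ih =>
    rcases h with h | h
    · exact ⟨_, Set.mem_insert _ _, h⟩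
    · obtain ⟨χ, h1, h2⟩ := ih h
      exact ⟨χ, Set.mem_insert_of_mem _ h1, h2⟩
  | and k f ih =>
    rcases h with h | h
    · exact ⟨_, Set.mem_insert _ _, h⟩
    · obtain ⟨j, hj⟩ := Set.mem_iUnion.1 h
      obtain ⟨χ, h1, h2⟩ := ih j hj
      exact ⟨χ, Set.mem_insert_of_mem _ (Set.mem_iUnion.2 ⟨j, h1⟩), h2⟩
  | or k f ih =>
    rcases h with h | h
    · exact ⟨_, Set.mem_insert _ _, h⟩
    · obtain ⟨j, hj⟩ := Set.mem_iUnion.1 h
      obtain ⟨χ, h1, h2⟩ := ih j hj
      exact ⟨χ, Set.mem_insert_of_mem _ (Set.mem_iUnion.2 ⟨j, h1⟩), h2⟩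
  | mod i k f ih =>
    rcases h with h | h
    · exact ⟨_, Set.mem_insert _ _, h⟩
    · obtain ⟨j, hj⟩ := Set.mem_iUnion.1 h
      obtain ⟨χ, h1, h2⟩ := ih j hj
      exact ⟨χ, Set.mem_insert_of_mem _ (Set.mem_iUnion.2 ⟨j, h1⟩), h2⟩

theorem correctAt_image {w : Fml p (Finset (Fin n)) → Prop} {σ : Equiv.Perm (Fin n)}
    {φ : Fml p (Finset (Fin n))} (h : Fml.CorrectAt w (image σ φ)) :
    Fml.CorrectAt (fun ψ => w (image σ ψ)) φ := by
  cases φ with
  | var x => exact trivial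
  | _ => exact h

/-- The union of the sets of a list of bounded length. -/
theorem exists_union {α : Type} {n : ℕ} {W : Finset (Fin n)} {k : ℕ} (l : List α)
    (Q : Finset (Fin n) → α → Prop) (h : ∀ x ∈ l, ∃ B ⊆ W, B.card ≤ k ∧ Q B x) :
    ∃ U ⊆ W, U.card ≤ l.length * k ∧ ∀ x ∈ l, ∃ B ⊆ U, B.card ≤ k ∧ Q B x := by
  classical
  induction l with
  | nil => exact ⟨∅, Finset.empty_subset _, by simp, by simp⟩
  | cons a l ih =>
    obtain ⟨U, hUW, hUc, hU⟩ := ih fun x hx => h x (List.mem_cons_of_mem _ hx)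
    obtain ⟨B, hBW, hBk, hB⟩ := h a List.mem_cons_self
    refine ⟨B ∪ U, Finset.union_subset hBW hUW, ?_, ?_⟩
    · have h1 := Finset.card_union_le B U
      rw [List.length_cons, Nat.succ_mul]
      omega
    · intro x hx
      rcases List.mem_cons.1 hx with rfl | hx
      · exact ⟨B, Finset.subset_union_left, hBk, hB⟩
      · obtain ⟨B', h1, h2, h3⟩ := hU x hx
        exact ⟨B', h1.trans Finset.subset_union_right, h2, h3⟩

theorem sound (hp : p.Prime) (hINT : S_INT) (hMAP : S_MAP) (hMOV : S_MOV) (hPER : S_PER)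
    {W R : Finset (Fin n)} {k L : ℕ} {c : Equiv.Perm (Fin n)}
    (hRW : R ⊆ W) (hc : PermOf R c) {l : ℕ} (hcl : c ^ (p ^ l) = 1) (hk : k < p ^ l)
    (hfree : ∀ x ∈ R, ∀ i, 0 < i → i < p ^ l → (c ^ i) x ≠ x)
    (hcard : (2 * L + 2) * k + R.card ≤ W.card) (hcard2 : 2 * k < W.card)
    (P : Finset (Finset (Fin n))) {π : List (Fml p (Finset (Fin n)))} (hπ : IsProof L π)
    (hs : ∀ ψ ∈ Occurring π, ∃ B ⊆ W, B.card ≤ k ∧ Sup W B (cl ψ)) :
    ∀ (m : ℕ) (u : List (Fml p (Finset (Fin n)))) (A : Fml p (Finset (Fin n)))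
      (r : List (Fml p (Finset (Fin n)))), π = u ++ A :: r → u.length = m →
      ∀ g : Equiv.Perm (Fin n), PermOf W g → Good W R k (cl (image g A)) →
        V W R k P (image g A) := by
  classical
  have hocc : ∀ ψ ∈ Occurring π, ∀ χ ∈ ψ.subs, χ ∈ Occurring π := by
    rintro ψ ⟨B, hB, hψ⟩ χ hχ
    exact ⟨B, hB, subs_trans hψ hχ⟩
  have hline : ∀ B ∈ π, B ∈ Occurring π := fun B hB => ⟨B, hB, self_mem_subs B⟩
  have himg : ∀ g : Equiv.Perm (Fin n), PermOf W g → ∀ ψ ∈ Occurring π,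
      ∃ B ⊆ W, B.card ≤ k ∧ Sup W B (cl (image g ψ)) := by
    intro g hg ψ hψ
    obtain ⟨B, h1, h2, h3⟩ := hs ψ hψ
    exact ⟨B.map g.toEmbedding, hg.map_subset h1, by rw [Finset.card_map]; exact h2,
      hMAP (Fin n) (Cl p n) W B _ g hg h3⟩
  intro m
  induction m using Nat.strong_induction_on with
  | _ m ih =>
    intro u A r hu hm g hg hgood
    obtain ⟨Pr, hPr, hPrL, S, hSL, hSocc, hinf⟩ := hπ A u r hu
    obtain ⟨A0, hA0W, hA0k, hA0R, hA0⟩ := hgood
    obtain ⟨U1, hU1W, hU1c, hU1⟩ := exists_union (W := W) (k := k) Pr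
      (fun B ψ => Sup W B (cl (image g ψ))) (fun ψ hψ => himg g hg ψ (hline ψ (by
        rw [hu]
        exact List.mem_append_left _ (hPr ψ hψ))))
    obtain ⟨U2, hU2W, hU2c, hU2⟩ := exists_union (W := W) (k := k) S
      (fun B ψ => Sup W B (cl (image g ψ))) (fun ψ hψ => himg g hg ψ (hSocc ψ hψ))
    have hUc : (U1 ∪ U2).card ≤ 2 * L * k := by
      have h1 := Finset.card_union_le U1 U2
      have h2 : Pr.length * k ≤ L * k := Nat.mul_le_mul_right _ hPrL
      have h3 : S.length * k ≤ L * k := Nat.mul_le_mul_right _ hSL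
      have h4 : 2 * L * k = L * k + L * k := by ring
      omega
    have hLk : (2 * L + 2) * k = 2 * L * k + 2 * k := by ring
    have hUW : U1 ∪ U2 ⊆ W := Finset.union_subset hU1W hU2W
    obtain ⟨h, hhW, hhA, hhU⟩ := hMOV (Fin n) W A0 (U1 ∪ U2) R hA0W hUW hRW hA0R (by omega)
    set AT := A0 ∪ (U1 ∪ U2).map h.toEmbedding with hAT
    have hATW : AT ⊆ W := Finset.union_subset hA0W (hhW.map_subset hUW)
    have hUR : Disjoint ((U1 ∪ U2).map h.toEmbedding) R := by
      rw [Finset.disjoint_left]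
      intro x hx hxR
      rw [Finset.mem_map] at hx
      obtain ⟨b, hb, rfl⟩ := hx
      exact hhU b hb hxR
    have hATR : Disjoint AT R := Finset.disjoint_union_left.2 ⟨hA0R, hUR⟩
    have hATc : AT.card ≤ k + 2 * L * k := by
      have h1 := Finset.card_union_le A0 ((U1 ∪ U2).map h.toEmbedding)
      rw [Finset.card_map] at h1
      rw [hAT]
      omega
    obtain ⟨w, hw1, hw2⟩ := exists_world hp hINT hMAP hMOV hPER hRW hc hcl hk hfree hATW hATR
      (by omega) hcard2 P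
    have hhg : PermOf W (h * g) := hhW.mul hg
    -- supports of the moved formulas
    have hsupU : ∀ B ⊆ U1 ∪ U2, ∀ ψ : Fml p (Finset (Fin n)), Sup W B (cl (image g ψ)) →
        Sup W (B.map h.toEmbedding) (cl (image (h * g) ψ)) := by
      intro B hB ψ hψ
      rw [image_mul]
      exact hMAP (Fin n) (Cl p n) W B _ h hhW hψ
    have hmv : ∀ B ⊆ U1 ∪ U2, B.card ≤ k → ∀ ψ : Fml p (Finset (Fin n)),
        Sup W B (cl (image g ψ)) → Good W R k (cl (image (h * g) ψ)) ∧
          Sup W AT (cl (image (h * g) ψ)) := by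
      intro B hB hBk ψ hψ
      have h1 := hsupU B hB ψ hψ
      have h2 : B.map h.toEmbedding ⊆ (U1 ∪ U2).map h.toEmbedding := Finset.map_subset_map.2 hB
      exact ⟨⟨B.map h.toEmbedding, hhW.map_subset (hB.trans hUW), by rw [Finset.card_map]; exact hBk,
        Finset.disjoint_of_subset_left h2 hUR, h1⟩, sup_of_eq h1 (h2.trans Finset.subset_union_right)⟩
    have hwA := hinf (fun ψ => w (image (h * g) ψ)) (fun ψ hψ => by
      apply correctAt_image
      obtain ⟨B, hB, hBk, hBs⟩ := hU2 ψ hψ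
      obtain ⟨h1, h2⟩ := hmv B (hB.trans Finset.subset_union_right) hBk ψ hBs
      refine hw2 _ h1 h2 fun χ hχ => ?_
      obtain ⟨χ', hχ', rfl⟩ := subs_image _ hχ
      exact himg _ hhg χ' (hocc ψ (hSocc ψ hψ) χ' hχ')) (fun ψ hψ => by
      obtain ⟨B, hB, hBk, hBs⟩ := hU1 ψ hψ
      obtain ⟨h1, h2⟩ := hmv B (hB.trans Finset.subset_union_left) hBk ψ hBs
      change w (image (h * g) ψ)
      rw [hw1 _ h1]
      obtain ⟨u1, u2, hu12⟩ := List.append_of_mem (hPr ψ hψ)
      refine ih u1.length ?_ u1 ψ (u2 ++ A :: r) ?_ rfl (h * g) hhg h1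
      · rw [← hm, hu12, List.length_append, List.length_cons]
        omega
      · rw [hu, hu12, List.append_assoc, List.cons_append])
    have hAeq : cl (image (h * g) A) = cl (image g A) := by
      rw [image_mul, ← smul_cl]
      exact hA0 h hhW hhA
    have hwA' : w (image (h * g) A) := hwA
    rw [hw1 _ (by rw [hAeq]; exact ⟨A0, hA0W, hA0k, hA0R, hA0⟩), V_same (cl_eq.1 hAeq)] at hwA'
    exact hwA'

end Pool.Agent.L0h20.SY
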