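import Pool.Agent.L0h20.SY.Defs

set_option autoImplicit false

/-!
# Symmetric proofs: statements of the general lemmas
-/

namespace Pool.Agent.L0h20.SY

open Pool.Agent.L0h36.BG

/-- All permutations of `W` which fix the points of `A` fix `x`. -/
def Sup {Ω X : Type} [MulAction (Equiv.Perm Ω) X] (W A : Finset Ω) (x : X) : Prop :=
  ∀ σ : Equiv.Perm Ω, PermOf W σ → (∀ a ∈ A, σ a = a) → σ • x = x

/-- `x` has at least `M` images under the permutations of `W`. -/
def ManyIm {Ω X : Type} [MulAction (Equiv.Perm Ω) X] (W : Finset Ω) (M : ℕ) (x : X) : Prop :=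
  ∃ s : Finset (Equiv.Perm Ω), M ≤ s.card ∧ (∀ σ ∈ s, PermOf W σ) ∧
    ∀ σ ∈ s, ∀ τ ∈ s, σ • x = τ • x → σ = τ

/-- GEN, part 1: it suffices to consider transpositions. -/
def S_SWAP : Prop := ∀ (Ω X : Type) [Fintype Ω] [DecidableEq Ω] [MulAction (Equiv.Perm Ω) X]
  (W A : Finset Ω) (x : X),
  (∀ u ∈ W, ∀ v ∈ W, u ∉ A → v ∉ A → Equiv.swap u v • x = x) → Sup W A x

/-- GEN, part 2: the intersection of two supports. -/
def S_INT : Prop := ∀ (Ω X : Type) [Fintype Ω] [DecidableEq Ω] [MulAction (Equiv.Perm Ω) X]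
  (W A B : Finset Ω) (x : X),
  Sup W A x → Sup W B x → (∃ w ∈ W, w ∉ A ∧ w ∉ B) → Sup W (A ∩ B) x

/-- GEN, part 3: the image of a support. -/
def S_MAP : Prop := ∀ (Ω X : Type) [Fintype Ω] [DecidableEq Ω] [MulAction (Equiv.Perm Ω) X]
  (W A : Finset Ω) (x : X) (σ : Equiv.Perm Ω),
  PermOf W σ → Sup W A x → Sup W (A.map σ.toEmbedding) (σ • x)

/-- CNT: an element with a support of less than half of the points and few images has a small
support. -/
def S_CNT : Prop := ∀ (Ω X : Type) [Fintype Ω] [DecidableEq Ω] [MulAction (Equiv.Perm Ω) X]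
  (W A : Finset Ω) (k : ℕ) (x : X),
  A ⊆ W → 2 * A.card < W.card → Sup W A x → ¬ ManyIm W (2 ^ (k + 1)) x →
  ∃ B ⊆ W, B.card ≤ k ∧ Sup W B x

/-- STEP: the element `x` is given by the multiplicities `m` of elements with small supports; if `x`
has few images then it has a small support. -/
def S_STEP : Prop := ∀ (Ω X : Type) [Fintype Ω] [DecidableEq Ω] [MulAction (Equiv.Perm Ω) X]
  (W : Finset Ω) (k : ℕ) (x : X) (m : X → ℕ),
  (∀ σ : Equiv.Perm Ω, σ • x = x ↔ ∀ y, m (σ • y) = m y) →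
  (∀ y, m y ≠ 0 → ∃ B ⊆ W, B.card ≤ k ∧ Sup W B y) →
  ¬ ManyIm W (2 ^ (k + 1)) x → 4 * (k + 1) ^ 2 ≤ W.card →
  ∃ B ⊆ W, B.card ≤ k ∧ Sup W B x

/-- MOV: points of `B` are moved out of `R`, and `A` is fixed. -/
def S_MOV : Prop := ∀ (Ω : Type) [Fintype Ω] [DecidableEq Ω] (W A B R : Finset Ω),
  A ⊆ W → B ⊆ W → R ⊆ W → Disjoint A R → A.card + B.card + R.card ≤ W.card →
  ∃ σ : Equiv.Perm Ω, PermOf W σ ∧ (∀ a ∈ A, σ a = a) ∧ ∀ b ∈ B, σ b ∉ R

/-- CYC: a set `R` of points of `W` with a permutation of `R` all whose cycles have length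
`p ^ l > k`, such that the number of the other points is divisible by `q`. -/
def S_CYC : Prop := ∀ (p q n k : ℕ) (W : Finset (Fin n)), p.Prime → 2 ≤ q → p.Coprime q →
  q * p * (k + 1) ≤ W.card →
  ∃ (R : Finset (Fin n)) (c : Equiv.Perm (Fin n)) (l : ℕ), R ⊆ W ∧ R.card ≤ q * p * (k + 1) ∧
    PermOf R c ∧ c ^ (p ^ l) = 1 ∧ k < p ^ l ∧
    (∀ x ∈ R, ∀ i, 0 < i → i < p ^ l → (c ^ i) x ≠ x) ∧ q ∣ n - R.card

/-- PER: a permutation `e` of the elements of a finite type, each of which has a colour on which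
`c` of order `p ^ l` acts such that `e` changes the colour by `c`; if `c` fixes no colour then the
number of elements is divisible by `p`. -/
def S_PER : Prop := ∀ (p l : ℕ) (J Y : Type) [Fintype J] [DecidableEq J], p.Prime →
  ∀ (e : Equiv.Perm J) (h : J → Y) (c : Equiv.Perm Y), c ^ (p ^ l) = 1 →
  (∀ j, h (e j) = c (h j)) → (∀ j, c (h j) ≠ h j) → p ∣ Fintype.card J

end Pool.Agent.L0h20.SY
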