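import Pool.Agent.L0h20.SY.World

set_option autoImplicit false

/-!
# Locally correct truth assignments, and their values at all formulas with small supports
-/

namespace Pool.Agent.L0h20.SY

open Pool.Agent.L0h36.BG

variable {p n : ℕ} {W R A : Finset (Fin n)} {k : ℕ} {P : Finset (Finset (Fin n))}
  {c : Equiv.Perm (Fin n)}

/-- The value of a formula with a small support is that of one of its images. -/
theorem wc_moved (hMAP : S_MAP) (hMOV : S_MOV) (hRW : R ⊆ W) (hc : PermOf R c)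
    (hAW : A ⊆ W) (hAR : Disjoint A R) (hcard : A.card + k + R.card ≤ W.card)
    {φ : Fml p (Finset (Fin n))} (hy : ∃ B ⊆ W, B.card ≤ k ∧ Sup W B (cl φ)) :
    ∃ σ : Equiv.Perm (Fin n), PermOf W σ ∧ (∀ a ∈ A, σ a = a) ∧
      Good W R k (cl (image σ φ)) ∧ (wc W R A k P c (cl φ) ↔ V W R k P (image σ φ)) := by
  by_cases hgood : Good W R k (cl φ)
  · refine ⟨1, PermOf.one W, fun a _ => rfl, ?_, ?_⟩
    · rw [image_one]
      exact hgood
    · rw [image_one]
      exact wc_good hgood
  obtain ⟨B, hBW, hBk, hB⟩ := hy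
  obtain ⟨i, hi⟩ := rep_mem c (cl φ)
  have hcW : PermOf W (c ^ i) := (hc.mono hRW).zpow i
  have hB' : Sup W (B.map (c ^ i).toEmbedding) (rep c (cl φ)) := by
    rw [hi]
    exact hMAP (Fin n) (Cl p n) W B _ _ hcW hB
  obtain ⟨τ, hτW, hτA, hτ⟩ := hMOV (Fin n) W A (B.map (c ^ i).toEmbedding) R hAW
    (hcW.map_subset hBW) hRW hAR (by rw [Finset.card_map]; omega)
  have hex : ∃ σ : Equiv.Perm (Fin n), PermOf W σ ∧ (∀ a ∈ A, σ a = a) ∧
      Good W R k (σ • rep c (cl φ)) := by
    refine ⟨τ, hτW, hτA, (B.map (c ^ i).toEmbedding).map τ.toEmbedding,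
      hτW.map_subset (hcW.map_subset hBW), by rw [Finset.card_map, Finset.card_map]; exact hBk,
      ?_, hMAP (Fin n) (Cl p n) W _ _ τ hτW hB'⟩
    rw [Finset.disjoint_left]
    intro x hx hxR
    rw [Finset.mem_map] at hx
    obtain ⟨b, hb, rfl⟩ := hx
    exact hτ b hb hxR
  obtain ⟨g1, g2, g3⟩ := gam_spec hex
  have hcl : cl (image (gam W R A k (rep c (cl φ)) * c ^ i) φ) =
      gam W R A k (rep c (cl φ)) • rep c (cl φ) := by
    rw [← smul_cl, mul_smul, ← hi]
  refine ⟨gam W R A k (rep c (cl φ)) * c ^ i, g1.mul hcW, ?_, ?_, ?_⟩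
  · intro a ha
    rw [Equiv.Perm.mul_apply]
    have h1 : (c ^ i) a = a := hc.zpow i a fun h => Finset.disjoint_left.1 hAR ha h
    rw [h1, g2 a ha]
  · rw [hcl]
    exact g3
  · rw [← vc_cl (φ := image (gam W R A k (rep c (cl φ)) * c ^ i) φ), hcl]
    unfold wc
    rw [if_neg hgood]

/-- The truth values are correct at the good formulas with the support `A`. -/
theorem correct_wc (hp : p.Prime) (hINT : S_INT) (hMAP : S_MAP) (hMOV : S_MOV) (hPER : S_PER)
    (hRW : R ⊆ W) (hc : PermOf R c) {l : ℕ} (hcl : c ^ (p ^ l) = 1) (hk : k < p ^ l)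
    (hfree : ∀ x ∈ R, ∀ i, 0 < i → i < p ^ l → (c ^ i) x ≠ x)
    (hAW : A ⊆ W) (hAR : Disjoint A R) (hcard : A.card + k + R.card ≤ W.card)
    (hcard2 : 2 * k < W.card) (P : Finset (Finset (Fin n))) :
    ∀ T : Fml p (Finset (Fin n)), Good W R k (cl T) → Sup W A (cl T) →
      (∀ ψ ∈ T.subs, ∃ B ⊆ W, B.card ≤ k ∧ Sup W B (cl ψ)) →
        Fml.CorrectAt (fun φ => wc W R A k P c (cl φ)) T := by
  classical
  intro T hT hTA hsub
  have self_subs : ∀ φ : Fml p (Finset (Fin n)), φ ∈ φ.subs := by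
    intro φ
    cases φ with
    | var x => exact rfl
    | _ => exact Set.mem_insert _ _
  cases T with
  | var e => exact trivial
  | neg φ =>
    have hφ : Good W R k (cl φ) := by
      obtain ⟨B, h1, h2, h3, h4⟩ := hT
      exact ⟨B, h1, h2, h3, sup_neg_iff.1 h4⟩
    change wc W R A k P c (cl (Fml.neg φ)) ↔ ¬ wc W R A k P c (cl φ)
    rw [wc_good hT, wc_good hφ]
    exact Iff.rfl
  | and m f =>
    have hargs : ∀ j, ∃ B ⊆ W, B.card ≤ k ∧ Sup W B (cl (f j)) := fun j =>
      hsub _ (Set.mem_insert_of_mem _ (Set.mem_iUnion.2 ⟨j, self_subs _⟩))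
    have hA' : ∀ σ : Equiv.Perm (Fin n), PermOf W σ → (∀ a ∈ A, σ a = a) →
        ∀ y, mult f (σ • y) = mult f y := fun σ h1 h2 => (smul_and_iff f σ).1 (hTA σ h1 h2)
    change wc W R A k P c (cl (Fml.and m f)) ↔ ∀ j, wc W R A k P c (cl (f j))
    rw [wc_good hT]
    constructor
    · intro h j
      by_cases hj : Good W R k (cl (f j))
      · rw [wc_good hj]
        exact h j hj
      · obtain ⟨j', hj', hw⟩ := bad_arg (P := P) hMAP hMOV hRW hc hAW hAR hcard hA' j (hargs j) hj
        rw [hw]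
        exact h j' hj'
    · intro h j hj
      have := h j
      rwa [wc_good hj] at this
  | or m f =>
    have hargs : ∀ j, ∃ B ⊆ W, B.card ≤ k ∧ Sup W B (cl (f j)) := fun j =>
      hsub _ (Set.mem_insert_of_mem _ (Set.mem_iUnion.2 ⟨j, self_subs _⟩))
    have hA' : ∀ σ : Equiv.Perm (Fin n), PermOf W σ → (∀ a ∈ A, σ a = a) →
        ∀ y, mult f (σ • y) = mult f y := fun σ h1 h2 => (smul_or_iff f σ).1 (hTA σ h1 h2)
    change wc W R A k P c (cl (Fml.or m f)) ↔ ∃ j, wc W R A k P c (cl (f j))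
    rw [wc_good hT]
    constructor
    · rintro ⟨j, hj, hv⟩
      exact ⟨j, (wc_good hj).2 hv⟩
    · rintro ⟨j, hw⟩
      by_cases hj : Good W R k (cl (f j))
      · exact ⟨j, hj, (wc_good hj).1 hw⟩
      · obtain ⟨j', hj', hw'⟩ := bad_arg (P := P) hMAP hMOV hRW hc hAW hAR hcard hA' j (hargs j) hj
        exact ⟨j', hj', hw'.1 hw⟩
  | mod i m f =>
    have hargs : ∀ j, ∃ B ⊆ W, B.card ≤ k ∧ Sup W B (cl (f j)) := fun j =>
      hsub _ (Set.mem_insert_of_mem _ (Set.mem_iUnion.2 ⟨j, self_subs _⟩))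
    have hcA : ∀ y, mult f (c • y) = mult f y := by
      apply (smul_mod_iff i f c).1
      apply hTA c (hc.mono hRW)
      intro a ha
      exact hc a fun h => Finset.disjoint_left.1 hAR ha h
    obtain ⟨e, he⟩ := (args_iff f c).2 hcA
    have he' : ∀ j, cl (f (e j)) = c • cl (f j) := fun j => (cl_eq.2 (he j)).symm
    change wc W R A k P c (cl (Fml.mod i m f)) ↔
      (({j | wc W R A k P c (cl (f j))}.ncard : ℕ) : ZMod p) = i
    rw [wc_good hT]
    have hbadcount : p ∣ {j | ¬ Good W R k (cl (f j)) ∧ wc W R A k P c (cl (f j))}.ncard := by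
      have hinv : ∀ j, (¬ Good W R k (cl (f (e j))) ∧ wc W R A k P c (cl (f (e j)))) ↔
          (¬ Good W R k (cl (f j)) ∧ wc W R A k P c (cl (f j))) := by
        intro j
        rw [he' j]
        have h1 := good_smul_iff (k := k) (y := cl (f j)) hMAP hRW hc
        rw [h1]
        by_cases h2 : Good W R k (cl (f j))
        · simp only [h2, not_true_eq_false, false_and]
        · have h3 : wc W R A k P c (c • cl (f j)) ↔ wc W R A k P c (cl (f j)) := by
            unfold wc
            rw [if_neg h2, if_neg fun h => h2 (h1.1 h), rep_smul]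
          rw [h3]
      have h1 := hPER p l {j // ¬ Good W R k (cl (f j)) ∧ wc W R A k P c (cl (f j))} (Cl p n) hp
        (Equiv.Perm.subtypePerm (e : Equiv.Perm (Fin m)) hinv) (fun j => cl (f j.1)) (MulAction.toPerm c) (by
          have h2 := (MulAction.toPermHom (Equiv.Perm (Fin n)) (Cl p n)).map_pow c (p ^ l)
          rw [hcl, map_one] at h2
          exact h2.symm) (fun j => he' j.1) (fun j hj => j.2.1
            (good_of_fixed hINT hMAP hRW hc hk hfree hcard2 (hargs j.1) hj))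
      rw [← Nat.card_coe_set_eq, ← Fintype.card_eq_nat_card]
      exact h1
    have hsplit : {j | wc W R A k P c (cl (f j))}.ncard =
        {j | Good W R k (cl (f j)) ∧ V W R k P (f j)}.ncard +
        {j | ¬ Good W R k (cl (f j)) ∧ wc W R A k P c (cl (f j))}.ncard := by
      rw [← Set.ncard_union_eq _ (Set.toFinite _) (Set.toFinite _)]
      · congr 1
        ext j
        change wc W R A k P c (cl (f j)) ↔ (Good W R k (cl (f j)) ∧ V W R k P (f j)) ∨
          (¬ Good W R k (cl (f j)) ∧ wc W R A k P c (cl (f j)))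
        by_cases hj : Good W R k (cl (f j))
        · rw [wc_good hj]
          simp only [hj, true_and, not_true_eq_false, false_and, or_false]
        · simp only [hj, false_and, not_false_eq_true, true_and, false_or]
      · rw [Set.disjoint_left]
        rintro j ⟨h1, -⟩ ⟨h2, -⟩
        exact h2 h1
    rw [hsplit, Nat.cast_add, (ZMod.natCast_eq_zero_iff _ _).2 hbadcount, add_zero]
    exact Iff.rfl


/-- There is a truth assignment which extends the evaluation of the good formulas, is correct at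
the good formulas with the support `A`, and gives to each formula with a small support the value of
one of its images under permutations which fix the points of `A`. -/
theorem exists_world2 (hp : p.Prime) (hINT : S_INT) (hMAP : S_MAP) (hMOV : S_MOV) (hPER : S_PER)
    (hRW : R ⊆ W) (hc : PermOf R c) {l : ℕ} (hcl : c ^ (p ^ l) = 1) (hk : k < p ^ l)
    (hfree : ∀ x ∈ R, ∀ i, 0 < i → i < p ^ l → (c ^ i) x ≠ x)
    (hAW : A ⊆ W) (hAR : Disjoint A R) (hcard : A.card + k + R.card ≤ W.card)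
    (hcard2 : 2 * k < W.card) (P : Finset (Finset (Fin n))) :
    ∃ w : Fml p (Finset (Fin n)) → Prop,
      (∀ φ, Good W R k (cl φ) → (w φ ↔ V W R k P φ)) ∧
      (∀ T : Fml p (Finset (Fin n)), Good W R k (cl T) → Sup W A (cl T) →
        (∀ ψ ∈ T.subs, ∃ B ⊆ W, B.card ≤ k ∧ Sup W B (cl ψ)) → Fml.CorrectAt w T) ∧
      ∀ φ, (∃ B ⊆ W, B.card ≤ k ∧ Sup W B (cl φ)) →
        ∃ σ : Equiv.Perm (Fin n), PermOf W σ ∧ (∀ a ∈ A, σ a = a) ∧
          Good W R k (cl (image σ φ)) ∧ (w φ ↔ V W R k P (image σ φ)) :=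
  ⟨fun φ => wc W R A k P c (cl φ), fun _ hφ => wc_good hφ,
    correct_wc hp hINT hMAP hMOV hPER hRW hc hcl hk hfree hAW hAR hcard hcard2 P,
    fun _ hφ => wc_moved hMAP hMOV hRW hc hAW hAR hcard hφ⟩

end Pool.Agent.L0h20.SY
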